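import Pool.Agent.Helper94.KC.GoalsC

/-!
# Project KC (MP_bf413e_co): packet CO

A connected stuck set with connected complement.
-/

set_option autoImplicit false

namespace Pool.Agent.Helper23.KC

open scoped Classical
open Finset
open Pool.Agent.Helper94.KC

variable {V : Type} [Fintype V]

theorem gr_adj {T : Finset (Finset V)} {W : Finset V} {u v : V} :
    (gr (edW T W)).Adj u v ↔ (sk T).Adj u v ∧ u ∈ W ∧ v ∈ W := by
  show (u ≠ v ∧ ({u, v} : Finset V) ∈ edW T W) ↔ (u ≠ v ∧ ∃ t ∈ T, u ∈ t ∧ v ∈ t) ∧ u ∈ W ∧ v ∈ W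
  unfold edW ed
  simp only [mem_filter, mem_univ, true_and]
  constructor
  · rintro ⟨h, ⟨-, t, ht, h1⟩, h2⟩
    refine ⟨⟨h, t, ht, h1 (by simp), h1 (by simp)⟩, h2 (by simp), h2 (by simp)⟩
  · rintro ⟨⟨h, t, ht, h1, h2⟩, h3, h4⟩
    refine ⟨h, ⟨Finset.card_pair h, t, ht, ?_⟩, ?_⟩
    · intro x hx
      rcases Finset.mem_insert.1 hx with rfl | hx
      · exact h1
      · rwa [Finset.mem_singleton.1 hx]
    · intro x hx
      rcases Finset.mem_insert.1 hx with rfl | hx
      · exact h3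
      · rwa [Finset.mem_singleton.1 hx]

theorem gr_mono {T : Finset (Finset V)} {W W' : Finset V} (h : W ⊆ W') {u v : V}
    (huv : (gr (edW T W)).Reachable u v) : (gr (edW T W')).Reachable u v := by
  refine huv.mono ?_
  intro a b hab
  rw [gr_adj] at hab ⊢
  exact ⟨hab.1, h hab.2.1, h hab.2.2⟩

omit [Fintype V] in
theorem dR_mono {G : SimpleGraph V} {R R' : Finset V} {x : V}
    (h : ∀ y ∈ R, G.Adj x y → y ∈ R') : dR G R x ≤ dR G R' x := by
  unfold dR
  refine Finset.card_le_card fun y hy => ?_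
  rw [mem_filter] at hy ⊢
  exact ⟨h y hy.1 hy.2, hy.2⟩

/-- The packet CO. -/
theorem co : StmtCO := by
  intro V _ T hT hdg B hB hBc hdeg
  unfold Deg4 at hdeg
  push Not at hdeg
  obtain ⟨R0, hR0, hne0, hst0⟩ := hdeg
  -- a maximal stuck set
  let Fam : Finset (Finset V) := univ.filter fun R => R ⊆ univ \ B ∧ R.Nonempty ∧
    ∀ x ∈ R, 5 ≤ dR (sk T) R x
  have hFam : Fam.Nonempty := ⟨R0, by
    rw [mem_filter]
    exact ⟨mem_univ _, hR0, hne0, fun x hx => hst0 x hx⟩⟩
  obtain ⟨R, hR, hmax⟩ := Finset.exists_max_image Fam Finset.card hFam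
  rw [mem_filter] at hR
  obtain ⟨-, hRB, hRne, hRst⟩ := hR
  obtain ⟨b0, hb0⟩ := hB
  have hBR : B ⊆ univ \ R := by
    intro y hy
    rw [mem_sdiff]
    refine ⟨mem_univ _, fun hyR => ?_⟩
    exact (mem_sdiff.1 (hRB hyR)).2 hy
  -- the complement is connected
  have hcompl : ∀ y, y ∉ R → (gr (edW T (univ \ R))).Reachable b0 y := by
    by_contra hcon
    push Not at hcon
    obtain ⟨y0, hy0, hy0'⟩ := hcon
    let C : Finset V := univ.filter fun y => y ∉ R ∧ ¬ (gr (edW T (univ \ R))).Reachable b0 y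
    have hCmem : ∀ y, y ∈ C ↔ y ∉ R ∧ ¬ (gr (edW T (univ \ R))).Reachable b0 y := by
      intro y
      simp only [C, mem_filter, mem_univ, true_and]
    have hRC : R ∪ C ∈ Fam := by
      rw [mem_filter]
      refine ⟨mem_univ _, ?_, hRne.mono subset_union_left, ?_⟩
      · intro y hy
        rw [mem_sdiff]
        refine ⟨mem_univ _, fun hyB => ?_⟩
        rcases mem_union.1 hy with hy | hy
        · exact (mem_sdiff.1 (hRB hy)).2 hyB
        · exact ((hCmem y).1 hy).2 (gr_mono hBR (hBc b0 hb0 y hyB))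
      · intro y hy
        rcases mem_union.1 hy with hy | hy
        · exact (hRst y hy).trans (dR_mono fun z hz _ => mem_union_left _ hz)
        · have h1 : dR (sk T) univ y ≤ dR (sk T) (R ∪ C) y := by
            refine dR_mono fun z _ hyz => ?_
            by_cases hzR : z ∈ R
            · exact mem_union_left _ hzR
            · refine mem_union_right _ ((hCmem z).2 ⟨hzR, fun hz => ?_⟩)
              obtain ⟨hy1, hy2⟩ := (hCmem y).1 hy
              refine hy2 (hz.trans ?_)
              apply SimpleGraph.Adj.reachable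
              rw [gr_adj]
              exact ⟨hyz.symm, mem_sdiff.2 ⟨mem_univ _, hzR⟩, mem_sdiff.2 ⟨mem_univ _, hy1⟩⟩
          have h2 : 6 ≤ dR (sk T) univ y := hdg y
          omega
    have h1 := hmax _ hRC
    have h2 : R ∪ C = R := (Finset.eq_of_subset_of_card_le subset_union_left h1).symm
    have h3 : y0 ∈ R ∪ C := mem_union_right _ ((hCmem y0).2 ⟨hy0, hy0'⟩)
    rw [h2] at h3
    exact hy0 h3
  -- a component
  obtain ⟨x0, hx0⟩ := hRne
  let R1 : Finset V := univ.filter fun y => y ∈ R ∧ (gr (edW T R)).Reachable x0 y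
  have hR1 : ∀ y, y ∈ R1 ↔ y ∈ R ∧ (gr (edW T R)).Reachable x0 y := by
    intro y
    simp only [R1, mem_filter, mem_univ, true_and]
  have hR1R : R1 ⊆ R := fun y hy => ((hR1 y).1 hy).1
  have hx01 : x0 ∈ R1 := (hR1 x0).2 ⟨hx0, SimpleGraph.Reachable.refl _⟩
  have hstep : ∀ y ∈ R1, ∀ z ∈ R, (sk T).Adj y z → z ∈ R1 := by
    intro y hy z hz hyz
    obtain ⟨h1, h2⟩ := (hR1 y).1 hy
    refine (hR1 z).2 ⟨hz, h2.trans ?_⟩
    apply SimpleGraph.Adj.reachable
    rw [gr_adj]
    exact ⟨hyz, h1, hz⟩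
  have hcon1 : ∀ y, (gr (edW T R)).Reachable x0 y → (gr (edW T R1)).Reachable x0 y := by
    intro y hy
    rw [SimpleGraph.reachable_iff_reflTransGen] at hy
    induction hy with
    | refl => exact SimpleGraph.Reachable.refl _
    | @tail a b hab h1 ih =>
      refine ih.trans ?_
      apply SimpleGraph.Adj.reachable
      rw [gr_adj] at h1 ⊢
      have ha : a ∈ R1 := (hR1 a).2 ⟨h1.2.1, (SimpleGraph.reachable_iff_reflTransGen _ _).2 hab⟩
      exact ⟨h1.1, ha, hstep a ha b h1.2.2 h1.1⟩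
  refine ⟨R1, hR1R.trans hRB, ⟨x0, hx01⟩, ?_, ?_, ?_⟩
  · intro u hu v hv
    exact (hcon1 u ((hR1 u).1 hu).2).symm.trans (hcon1 v ((hR1 v).1 hv).2)
  · -- the complement of the component is connected
    have hsub : univ \ R ⊆ univ \ R1 := Finset.sdiff_subset_sdiff (Finset.Subset.refl _) hR1R
    have hb0R : b0 ∉ R := (mem_sdiff.1 (hBR hb0)).2
    have key : ∀ (y z : V) (w : (sk T).Walk y z), z = b0 → y ∉ R1 →
        (gr (edW T (univ \ R1))).Reachable b0 y := by
      intro y z w
      induction w with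
      | nil =>
        intro h _
        rw [h]
      | @cons a b c hab w ih =>
        intro h ha
        by_cases haR : a ∈ R
        · have hb : b ∉ R1 := fun hb => ha (hstep b hb a haR hab.symm)
          refine (ih h hb).trans ?_
          apply SimpleGraph.Adj.reachable
          rw [gr_adj]
          exact ⟨hab.symm, mem_sdiff.2 ⟨mem_univ _, hb⟩, mem_sdiff.2 ⟨mem_univ _, ha⟩⟩
        · exact gr_mono hsub (hcompl a haR)
    intro u hu v hv
    obtain ⟨wu⟩ := hT.conn.preconnected u b0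
    obtain ⟨wv⟩ := hT.conn.preconnected v b0
    exact (key u b0 wu rfl (mem_sdiff.1 hu).2).symm.trans (key v b0 wv rfl (mem_sdiff.1 hv).2)
  · intro x hx
    exact (hRst x (hR1R hx)).trans (dR_mono fun z hz hxz => hstep x hx z hz hxz)

end Pool.Agent.Helper23.KC
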