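import Mathlib
import Pool.Agent.Helper53.P1F.System

set_option autoImplicit false

/-!
# Skew products of pairs of involutions
-/

namespace Pool.Agent.Helper23.KC

open Finset Pool.Agent.Helper53.P1F

variable {V : Type*} [Fintype V] [DecidableEq V]

theorem Orb.trans' {W : Type*} {f g : W → W} {b c x : W} (h : Orb f g b c) (h' : Orb f g c x) :
    Orb f g b x := by
  induction h' with
  | base => exact h
  | stepf _ ih => exact ih.stepf
  | stepg _ ih => exact ih.stepg

/-- If two involutions of a finite set generate a transitive group and one of them fixes `a`, then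
the orbit of `a` under their composite is everything. -/
theorem exists_iterate {f g : V → V} (hf : ∀ x, f (f x) = x) (hg : ∀ x, g (g x) = x)
    {a b : V} (ha : f a = a) (hb : ∀ x, Orb f g b x) (x : V) :
    ∃ k : ℕ, (fun y => g (f y))^[k] a = x := by
  classical
  let F : Equiv.Perm V := Function.Involutive.toPerm f hf
  let G : Equiv.Perm V := Function.Involutive.toPerm g hg
  have hFF : F * F = 1 := Equiv.ext fun y => hf y
  have hGG : G * G = 1 := Equiv.ext fun y => hg y
  let H : Equiv.Perm V := G * F
  have hFH : F * H * F⁻¹ = H⁻¹ := by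
    have hF' : F⁻¹ = F := inv_eq_of_mul_eq_one_left hFF
    have hG' : G⁻¹ = G := inv_eq_of_mul_eq_one_left hGG
    show F * (G * F) * F⁻¹ = (G * F)⁻¹
    rw [mul_inv_rev, hF', hG', mul_assoc, mul_assoc, hFF, mul_one]
  have hFk : ∀ k : ℤ, F * H ^ k = H ^ (-k) * F := by
    intro k
    have h1 : F * H ^ k * F⁻¹ = H ^ (-k) := by
      rw [← conj_zpow, hFH, inv_zpow, zpow_neg]
    rw [← h1, inv_mul_cancel_right]
  let S : Set V := {y | ∃ k : ℤ, (H ^ k) a = y}
  have hSf : ∀ y ∈ S, f y ∈ S := by
    rintro y ⟨k, rfl⟩
    refine ⟨-k, ?_⟩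
    have h1 : (F * H ^ k) a = (H ^ (-k) * F) a := by rw [hFk]
    have h2 : F ((H ^ k) a) = (H ^ (-k)) (F a) := h1
    have h3 : F a = a := ha
    rw [h3] at h2
    exact h2.symm
  have hSg : ∀ y ∈ S, g y ∈ S := by
    intro y hy
    obtain ⟨k, hk⟩ := hSf y hy
    refine ⟨1 + k, ?_⟩
    rw [zpow_add, zpow_one]
    show H ((H ^ k) a) = g y
    rw [hk]
    show g (f (f y)) = g y
    rw [hf]
  have haS : a ∈ S := ⟨0, by simp⟩
  have hbS : b ∈ S := Orb.back hf hg S hSf hSg (hb a) haS
  have hxS : x ∈ S := Orb.mem_of_closed S hSf hSg hbS (hb x)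
  have hsc : H.SameCycle a x := hxS
  obtain ⟨k, hk⟩ := hsc.exists_nat_pow_eq
  refine ⟨k, ?_⟩
  have h4 : ∀ n : ℕ, (fun y => g (f y))^[n] a = (H ^ n) a := by
    intro n
    induction n with
    | zero => simp
    | succ n ih =>
      rw [Function.iterate_succ_apply', ih, pow_succ']
      rfl
  rw [h4]
  exact hk

/-- A transitive self-map of a set with `N` elements. -/
theorem iterate_card {h : V → V} (hinj : Function.Injective h) {a : V}
    (ht : ∀ x, ∃ k : ℕ, h^[k] a = x) :
    h^[Fintype.card V] a = a ∧
      ∀ {M : Type*} [AddCommMonoid M] (d : V → M),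
        ∑ i ∈ range (Fintype.card V), d (h^[i] a) = ∑ v, d v := by
  classical
  have hper : a ∈ Function.periodicPts h := Function.Injective.mem_periodicPts hinj a
  have hpos : 0 < Function.minimalPeriod h a := Function.minimalPeriod_pos_of_mem_periodicPts hper
  set p := Function.minimalPeriod h a with hp
  have hsurj : ∀ x, ∃ k < p, h^[k] a = x := by
    intro x
    obtain ⟨k, hk⟩ := ht x
    refine ⟨k % p, Nat.mod_lt _ hpos, ?_⟩
    rw [hp, Function.iterate_mod_minimalPeriod_eq]
    exact hk
  have hinjOn : Set.InjOn (fun n : ℕ => h^[n] a) (range p : Finset ℕ) := by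
    intro i hi j hj hij
    rw [mem_coe, mem_range] at hi hj
    exact Function.iterate_injOn_Iio_minimalPeriod (f := h) (x := a) hi hj hij
  have himg : (range p).image (fun n : ℕ => h^[n] a) = univ := by
    ext x
    simp only [mem_image, mem_range, mem_univ, iff_true]
    exact hsurj x
  have hcard : p = Fintype.card V := by
    have h1 := card_image_of_injOn hinjOn
    rw [himg, card_range, card_univ] at h1
    exact h1.symm
  refine ⟨?_, ?_⟩
  · rw [← hcard]
    exact Function.isPeriodicPt_minimalPeriod h a
  · intro M _ d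
    rw [← hcard, ← himg, sum_image hinjOn]

theorem iterate_skew {M : Type*} [AddCommMonoid M] (h : V → V) (d : V → M) (k : ℕ) (u : V) (x : M) :
    (fun w : V × M => (h w.1, w.2 + d w.1))^[k] (u, x) =
      (h^[k] u, x + ∑ i ∈ range k, d (h^[i] u)) := by
  induction k with
  | zero => simp
  | succ k ih =>
    rw [Function.iterate_succ_apply', ih, Function.iterate_succ_apply', sum_range_succ, add_assoc]

/-- **Skew products.**  Over a transitive pair of involutions of `V`, the skew product with
`ZMod P` is transitive as soon as the total shift is a unit. -/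
theorem skew_orb {P : ℕ} [NeZero P] {f g : V → V} (hf : ∀ x, f (f x) = x) (hg : ∀ x, g (g x) = x)
    {a b : V} (ha : f a = a) (hb : ∀ x, Orb f g b x) (A B : V → ZMod P)
    (hu : IsUnit (∑ v, B v - ∑ v, A v)) (w : V × ZMod P) :
    Orb (fun w : V × ZMod P => (f w.1, A w.1 - w.2)) (fun w : V × ZMod P => (g w.1, B w.1 - w.2))
      (a, 0) w := by
  classical
  set F : V × ZMod P → V × ZMod P := fun w => (f w.1, A w.1 - w.2) with hF
  set G : V × ZMod P → V × ZMod P := fun w => (g w.1, B w.1 - w.2) with hG
  have hfinj : Function.Injective f := fun x y hxy => by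
    have := congrArg f hxy; rwa [hf, hf] at this
  have hginj : Function.Injective g := fun x y hxy => by
    have := congrArg g hxy; rwa [hg, hg] at this
  set h : V → V := fun y => g (f y) with hh
  have hinj : Function.Injective h := fun x y hxy => hfinj (hginj hxy)
  have ht : ∀ x, ∃ k : ℕ, h^[k] a = x := exists_iterate hf hg ha hb
  obtain ⟨hm, hsum⟩ := iterate_card hinj ht
  set d : V → ZMod P := fun u => B (f u) - A u with hd
  set H : V × ZMod P → V × ZMod P := fun w => (h w.1, w.2 + d w.1) with hH
  have hHGF : ∀ w, H w = G (F w) := by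
    intro w
    simp only [hH, hG, hF, hh, hd]
    ext
    · rfl
    · simp only
      ring
  have horb : ∀ k, Orb F G (a, 0) (H^[k] (a, 0)) := by
    intro k
    induction k with
    | zero => exact Orb.base
    | succ k ih =>
      rw [Function.iterate_succ_apply', hHGF]
      exact ih.stepf.stepg
  have hD : ∑ v, d v = ∑ v, B v - ∑ v, A v := by
    simp only [hd, sum_sub_distrib]
    congr 1
    exact Fintype.sum_bijective f ⟨hfinj, fun y => ⟨f y, hf y⟩⟩ _ _ (fun _ => rfl)
  set D := ∑ v, d v with hDdef
  have hDu : IsUnit D := by rw [hD]; exact hu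
  set m := Fintype.card V with hmdef
  have hper : ∀ x, H^[m] (a, x) = (a, x + D) := by
    intro x
    rw [hH, iterate_skew, hm, hsum]
  have hpert : ∀ t : ℕ, H^[m * t] (a, 0) = (a, (t : ZMod P) * D) := by
    intro t
    induction t with
    | zero => simp
    | succ t ih =>
      rw [Nat.mul_succ, Nat.add_comm, Function.iterate_add_apply, ih, hper]
      push_cast
      ext
      · rfl
      · simp only
        ring
  obtain ⟨v, y⟩ := w
  obtain ⟨k, hk⟩ := ht v
  obtain ⟨D', hD'⟩ := hDu
  set z : ZMod P := (y - ∑ i ∈ range k, d (h^[i] a)) * (D'⁻¹ : (ZMod P)ˣ) with hz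
  have hfin : H^[k + m * z.val] (a, 0) = (v, y) := by
    rw [Function.iterate_add_apply, hpert, ZMod.natCast_zmod_val, hH, iterate_skew, hk]
    ext
    · rfl
    · simp only [hz]
      rw [← hD', mul_assoc, Units.inv_mul, mul_one]
      ring
  have := horb (k + m * z.val)
  rw [hfin] at this
  exact this

end Pool.Agent.Helper23.KC
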