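import Mathlib
import Pool.Agent.Helper53.P1F.System
import Pool.Agent.Helper23.KC.Skew

set_option autoImplicit false

/-!
# Counting the components of the union of two involutions
-/

namespace Pool.Agent.Helper23.KC

open Finset Pool.Agent.Helper53.P1F

variable {V : Type*} [Fintype V] [DecidableEq V]

/-- Two involutions with one fixed point each, all orbits of the composite of length at least `L`:
then the graph has few components. -/
theorem comp_count {f g : V → V} (hf : ∀ x, f (f x) = x) (hg : ∀ x, g (g x) = x)
    {a b : V} (ha : ∀ x, f x = x ↔ x = a) (hb : ∀ x, g x = x ↔ x = b) {L : ℕ}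
    (hL : ∀ u i, 0 < i → i < L → (fun y => g (f y))^[i] u ≠ u)
    (G : SimpleGraph V) (hGf : ∀ x, f x ≠ x → G.Adj x (f x)) (hGg : ∀ x, g x ≠ x → G.Adj x (g x)) :
    (2 * Nat.card G.ConnectedComponent - 1) * L ≤ Fintype.card V := by
  classical
  let F : Equiv.Perm V := Function.Involutive.toPerm f hf
  let Q : Equiv.Perm V := Function.Involutive.toPerm g hg
  have hFF : F * F = 1 := Equiv.ext fun y => hf y
  have hQQ : Q * Q = 1 := Equiv.ext fun y => hg y
  let H : Equiv.Perm V := Q * F
  have hFH : F * H * F⁻¹ = H⁻¹ := by
    have hF' : F⁻¹ = F := inv_eq_of_mul_eq_one_left hFF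
    have hQ' : Q⁻¹ = Q := inv_eq_of_mul_eq_one_left hQQ
    show F * (Q * F) * F⁻¹ = (Q * F)⁻¹
    rw [mul_inv_rev, hF', hQ', mul_assoc, mul_assoc, hFF, mul_one]
  have hFk : ∀ k : ℤ, F * H ^ k = H ^ (-k) * F := by
    intro k
    have h1 : F * H ^ k * F⁻¹ = H ^ (-k) := by
      rw [← conj_zpow, hFH, inv_zpow, zpow_neg]
    rw [← h1, inv_mul_cancel_right]
  have hf' : ∀ (k : ℤ) (u : V), f ((H ^ k) u) = (H ^ (-k)) (f u) := by
    intro k u
    have : (F * H ^ k) u = (H ^ (-k) * F) u := by rw [hFk]
    exact this
  have hg' : ∀ (k : ℤ) (u : V), g ((H ^ k) u) = (H ^ (1 - k)) (f u) := by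
    intro k u
    have h1 : g ((H ^ k) u) = H (f ((H ^ k) u)) := by
      show g ((H ^ k) u) = g (f (f ((H ^ k) u)))
      rw [hf]
    rw [h1, hf', sub_eq_add_neg, zpow_add, zpow_one]
    rfl
  have hiter : ∀ (n : ℕ) (u : V), (fun y => g (f y))^[n] u = (H ^ n) u := by
    intro n u
    induction n with
    | zero => simp
    | succ n ih =>
      rw [Function.iterate_succ_apply', ih, pow_succ']
      rfl
  have rf : ∀ x, G.Reachable x (f x) := by
    intro x
    by_cases h : f x = x
    · rw [h]
    · exact (hGf x h).reachable
  have rg : ∀ x, G.Reachable x (g x) := by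
    intro x
    by_cases h : g x = x
    · rw [h]
    · exact (hGg x h).reachable
  have rH : ∀ x, G.Reachable x (H x) := fun x => (rf x).trans (rg (f x))
  have rHn : ∀ (n : ℕ) (x : V), G.Reachable x ((H ^ n) x) := by
    intro n x
    induction n with
    | zero => simp
    | succ n ih =>
      rw [pow_succ']
      exact ih.trans (rH _)
  have rHz : ∀ (k : ℤ) (x : V), G.Reachable x ((H ^ k) x) := by
    intro k x
    obtain ⟨n, rfl | rfl⟩ := k.eq_nat_or_neg
    · rw [zpow_natCast]; exact rHn n x
    · have := rHn n ((H ^ (-(n : ℤ))) x)
      rw [← zpow_natCast, ← Equiv.Perm.mul_apply, ← zpow_add, add_neg_cancel, zpow_zero] at this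
      exact this.symm
  -- the two fixed points are in one component
  have hab : G.Reachable a b := by
    have hfa : f a = a := (ha a).mpr rfl
    have hper : a ∈ Function.periodicPts (H : V → V) := Function.Injective.mem_periodicPts H.injective a
    have hpos := Function.minimalPeriod_pos_of_mem_periodicPts hper
    have hmin : (H ^ (Function.minimalPeriod (H : V → V) a)) a = a := by
      have := Function.isPeriodicPt_minimalPeriod (H : V → V) a
      rw [Function.IsPeriodicPt, Function.IsFixedPt, Equiv.Perm.iterate_eq_pow] at this
      exact this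
    rcases Nat.even_or_odd' (Function.minimalPeriod (H : V → V) a) with ⟨l, hl | hl⟩
    · exfalso
      have h1 : f ((H ^ (l : ℤ)) a) = (H ^ (l : ℤ)) a := by
        rw [hf', hfa]
        have h2 : (H ^ (-(l : ℤ))) ((H ^ (2 * l : ℕ)) a) = (H ^ (l : ℤ)) a := by
          rw [← zpow_natCast, ← Equiv.Perm.mul_apply, ← zpow_add]
          congr 2
          push_cast
          ring
        rw [hl] at hmin
        rw [hmin] at h2
        exact h2
      rw [ha] at h1
      have h3 : Function.IsPeriodicPt (H : V → V) l a := by
        rw [Function.IsPeriodicPt, Function.IsFixedPt, Equiv.Perm.iterate_eq_pow]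
        rw [zpow_natCast] at h1
        exact h1
      have h4 := h3.minimalPeriod_le (by omega)
      omega
    · have h1 : g ((H ^ ((l : ℤ) + 1)) a) = (H ^ ((l : ℤ) + 1)) a := by
        rw [hg', hfa]
        have h2 : (H ^ (1 - ((l : ℤ) + 1))) ((H ^ (2 * l + 1 : ℕ)) a) = (H ^ ((l : ℤ) + 1)) a := by
          rw [← zpow_natCast, ← Equiv.Perm.mul_apply, ← zpow_add]
          congr 2
          push_cast
          ring
        rw [hl] at hmin
        rw [hmin] at h2
        exact h2
      rw [hb] at h1
      rw [← h1]
      exact rHz _ _
  -- sizes of components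
  let mk := G.connectedComponentMk
  have size1 : ∀ u : V, L ≤ (univ.filter (fun v => mk v = mk u)).card := by
    intro u
    have hinj : Set.InjOn (fun i : ℕ => (H ^ i) u) (range L : Finset ℕ) := by
      intro i hi j hj hij
      rw [mem_coe, mem_range] at hi hj
      by_contra hne
      rcases lt_or_gt_of_ne hne with h | h
      · have : (H ^ (j - i)) u = u := by
          have h1 : (H ^ i) ((H ^ (j - i)) u) = (H ^ i) u := by
            rw [← Equiv.Perm.mul_apply, ← pow_add, Nat.add_sub_cancel' h.le]
            exact hij.symm
          exact (H ^ i).injective h1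
        rw [← hiter] at this
        exact hL u (j - i) (by omega) (by omega) this
      · have : (H ^ (i - j)) u = u := by
          have h1 : (H ^ j) ((H ^ (i - j)) u) = (H ^ j) u := by
            rw [← Equiv.Perm.mul_apply, ← pow_add, Nat.add_sub_cancel' h.le]
            exact hij
          exact (H ^ j).injective h1
        rw [← hiter] at this
        exact hL u (i - j) (by omega) (by omega) this
    calc L = ((range L).image (fun i : ℕ => (H ^ i) u)).card := by
          rw [card_image_of_injOn hinj, card_range]
      _ ≤ _ := by
          apply card_le_card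
          intro v hv
          rw [mem_image] at hv
          obtain ⟨i, _, rfl⟩ := hv
          simp only [mem_filter, mem_univ, true_and]
          exact SimpleGraph.ConnectedComponent.sound (rHn i u).symm
  have size2 : ∀ u : V, mk u ≠ mk a → 2 * L ≤ (univ.filter (fun v => mk v = mk u)).card := by
    intro u hu
    have nofix : ∀ k : ℤ, f u ≠ (H ^ k) u := by
      intro k hk
      rcases Int.even_or_odd' k with ⟨t, ht | ht⟩
      · have h1 : f ((H ^ t) u) = (H ^ t) u := by
          rw [hf', hk, ← Equiv.Perm.mul_apply, ← zpow_add]
          congr 2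
          rw [ht]; ring
        rw [ha] at h1
        apply hu
        apply SimpleGraph.ConnectedComponent.sound
        rw [← h1]
        exact rHz t u
      · have h1 : g ((H ^ (t + 1)) u) = (H ^ (t + 1)) u := by
          rw [hg', hk, ← Equiv.Perm.mul_apply, ← zpow_add]
          congr 2
          rw [ht]; ring
        rw [hb] at h1
        apply hu
        apply SimpleGraph.ConnectedComponent.sound
        refine SimpleGraph.Reachable.trans ?_ hab.symm
        rw [← h1]
        exact rHz _ u
    have hinj : ∀ u : V, Set.InjOn (fun i : ℕ => (H ^ i) u) (range L : Finset ℕ) := by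
      intro u i hi j hj hij
      rw [mem_coe, mem_range] at hi hj
      by_contra hne
      rcases lt_or_gt_of_ne hne with h | h
      · have : (H ^ (j - i)) u = u := by
          have h1 : (H ^ i) ((H ^ (j - i)) u) = (H ^ i) u := by
            rw [← Equiv.Perm.mul_apply, ← pow_add, Nat.add_sub_cancel' h.le]
            exact hij.symm
          exact (H ^ i).injective h1
        rw [← hiter] at this
        exact hL u (j - i) (by omega) (by omega) this
      · have : (H ^ (i - j)) u = u := by
          have h1 : (H ^ j) ((H ^ (i - j)) u) = (H ^ j) u := by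
            rw [← Equiv.Perm.mul_apply, ← pow_add, Nat.add_sub_cancel' h.le]
            exact hij
          exact (H ^ j).injective h1
        rw [← hiter] at this
        exact hL u (i - j) (by omega) (by omega) this
    have hdisj : Disjoint ((range L).image (fun i : ℕ => (H ^ i) u))
        ((range L).image (fun i : ℕ => (H ^ i) (f u))) := by
      rw [disjoint_left]
      rintro v h1 h2
      rw [mem_image] at h1 h2
      obtain ⟨i, _, hi⟩ := h1
      obtain ⟨j, _, hj⟩ := h2
      apply nofix ((i : ℤ) - j)
      have h3 : (H ^ (j : ℤ)) (f u) = (H ^ (j : ℤ)) ((H ^ ((i : ℤ) - j)) u) := by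
        rw [← Equiv.Perm.mul_apply, ← zpow_add, zpow_natCast, hj]
        rw [show (j : ℤ) + ((i : ℤ) - j) = i by ring, zpow_natCast, hi]
      exact (H ^ (j : ℤ)).injective h3
    calc 2 * L = ((range L).image (fun i : ℕ => (H ^ i) u)).card
            + ((range L).image (fun i : ℕ => (H ^ i) (f u))).card := by
          rw [card_image_of_injOn (hinj u), card_image_of_injOn (hinj (f u)), card_range, two_mul]
      _ = (((range L).image (fun i : ℕ => (H ^ i) u)) ∪
            ((range L).image (fun i : ℕ => (H ^ i) (f u)))).card := by
          rw [card_union_of_disjoint hdisj]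
      _ ≤ _ := by
          apply card_le_card
          intro v hv
          rw [mem_union, mem_image, mem_image] at hv
          simp only [mem_filter, mem_univ, true_and]
          rcases hv with ⟨i, _, rfl⟩ | ⟨i, _, rfl⟩
          · exact SimpleGraph.ConnectedComponent.sound (rHn i u).symm
          · exact SimpleGraph.ConnectedComponent.sound ((rf u).trans (rHn i (f u))).symm
  have hsum : Fintype.card V = ∑ K : G.ConnectedComponent, (univ.filter (fun v => mk v = K)).card := by
    rw [← card_univ]
    exact card_eq_sum_card_fiberwise (fun v _ => mem_univ _)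
  have hlow : ∀ K : G.ConnectedComponent,
      (if K = mk a then L else 2 * L) ≤ (univ.filter (fun v => mk v = K)).card := by
    intro K
    induction K using SimpleGraph.ConnectedComponent.ind with
    | _ u =>
      split_ifs with h
      · exact size1 u
      · exact size2 u h
  have htot : ∑ K : G.ConnectedComponent, (if K = mk a then L else 2 * L) ≤ Fintype.card V := by
    rw [hsum]
    exact sum_le_sum (fun K _ => hlow K)
  have hcalc : ∑ K : G.ConnectedComponent, (if K = mk a then L else 2 * L) + L
      = 2 * L * Nat.card G.ConnectedComponent := by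
    have h1 : ∑ K : G.ConnectedComponent, (if K = mk a then L else 2 * L) +
        ∑ K : G.ConnectedComponent, (if K = mk a then L else 0) =
        ∑ K : G.ConnectedComponent, 2 * L := by
      rw [← sum_add_distrib]
      apply sum_congr rfl
      intro K _
      split_ifs <;> ring
    rw [sum_ite_eq' univ (mk a) (fun _ => L), if_pos (mem_univ _)] at h1
    rw [h1, sum_const, smul_eq_mul, card_univ, Nat.card_eq_fintype_card, mul_comm]
  have hk : 1 ≤ Nat.card G.ConnectedComponent := by
    rw [Nat.card_eq_fintype_card]
    exact Fintype.card_pos_iff.mpr ⟨mk a⟩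
  have hfin : (2 * Nat.card G.ConnectedComponent - 1) * L + L = 2 * L * Nat.card G.ConnectedComponent := by
    obtain ⟨t, ht⟩ : ∃ t, Nat.card G.ConnectedComponent = t + 1 := ⟨_, (Nat.sub_add_cancel hk).symm⟩
    rw [ht]
    have : 2 * (t + 1) - 1 = 2 * t + 1 := by omega
    rw [this]
    ring
  omega

end Pool.Agent.Helper23.KC
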