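import Mathlib
import Pool.Agent.Helper53.P1F.System
import Pool.Agent.Helper53.P1F.Glue
import Pool.Agent.Helper23.KC.Skew

set_option autoImplicit false

/-!
# The product theorem for Hamiltonian pairs of nearly linear factors
-/

namespace Pool.Agent.Helper23.KC

open Finset Pool.Agent.Helper53.P1F

/-- The involutions of a near-factorization. -/
theorem involutions {m : ℕ} (hm : Odd m) {F : Fin m → Finset (Sym2 (Fin m))}
    (hF : IsNearFactorization m F) :
    ∃ f : Fin m → Fin m → Fin m, ∃ z : Fin m → Fin m,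
      (∀ i x, f i (f i x) = x) ∧ (∀ x i j, f i x = f j x → i = j) ∧
      (∀ i x, f i x = x ↔ x = z i) ∧ ∀ i, F i = fe (f i) := by
  classical
  obtain ⟨h1, h2, h3, h4⟩ := hF
  have huniq : ∀ i x y y', s(x, y) ∈ F i → s(x, y') ∈ F i → y = y' := by
    intro i x y y' hy hy'
    have := Finset.card_le_one.mp (h3 i x) s(x, y) (by simp [hy]) s(x, y') (by simp [hy'])
    exact Sym2.congr_right.mp this
  have hne : ∀ i x y, s(x, y) ∈ F i → x ≠ y := by
    intro i x y hxy
    simpa using h2 i _ hxy
  let f : Fin m → Fin m → Fin m := fun i x => if h : ∃ y, s(x, y) ∈ F i then h.choose else x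
  have hf1 : ∀ i x y, s(x, y) ∈ F i → f i x = y := by
    intro i x y hxy
    have h : ∃ y, s(x, y) ∈ F i := ⟨y, hxy⟩
    simp only [f, dif_pos h]
    exact huniq i x _ _ h.choose_spec hxy
  have hf2 : ∀ i x, f i x ≠ x → s(x, f i x) ∈ F i := by
    intro i x hx
    by_cases h : ∃ y, s(x, y) ∈ F i
    · obtain ⟨y, hy⟩ := h
      rw [hf1 i x y hy]
      exact hy
    · exact absurd (by simp only [f, dif_neg h]) hx
  have inv : ∀ i x, f i (f i x) = x := by
    intro i x
    by_cases hx : f i x = x
    · rw [hx, hx]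
    · have := hf2 i x hx
      rw [Sym2.eq_swap] at this
      exact hf1 i _ _ this
  have hFe : ∀ i, F i = fe (f i) := by
    intro i
    ext e
    induction e with
    | _ x y =>
      rw [mk_mem_fe (inv i)]
      constructor
      · intro h
        exact ⟨hne i x y h, hf1 i x y h⟩
      · rintro ⟨hxy, rfl⟩
        exact hf2 i x (fun h => hxy h.symm)
  have hfix : ∀ i, ∃ z, ∀ x, f i x = x ↔ x = z := by
    intro i
    have c1 := card_fe (inv i)
    rw [← hFe i, h1 i] at c1
    have c2 : (univ.filter (fun x => f i x = x)).card + (univ.filter (fun x => ¬ f i x = x)).card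
        = m := by
      rw [Finset.card_filter_add_card_filter_not, card_univ, Fintype.card_fin]
    have c3 : (univ.filter (fun x => f i x = x)).card = 1 := by
      obtain ⟨t, ht⟩ := hm
      have c4 : (univ.filter (fun x => ¬ f i x = x)).card = 2 * ((m - 1) / 2) := c1.symm
      omega
    obtain ⟨z, hz⟩ := card_eq_one.mp c3
    refine ⟨z, fun x => ?_⟩
    have : x ∈ univ.filter (fun x => f i x = x) ↔ x ∈ ({z} : Finset (Fin m)) := by rw [hz]
    simpa using this
  choose z hz using hfix
  have inj0 : ∀ x i j, f i x ≠ x → f i x = f j x → i = j := by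
    intro x i j hx hij
    have e1 := hf2 i x hx
    have e2 := hf2 j x (by rw [← hij]; exact hx)
    rw [← hij] at e2
    obtain ⟨k, _, hk⟩ := h4 s(x, f i x) (h2 i _ e1)
    rw [hk i e1, hk j e2]
  have surj : ∀ x y, ∃ i, f i x = y := by
    intro x y
    by_cases hxy : x = y
    · subst hxy
      by_contra hcon
      push Not at hcon
      have hmaps : ∀ i ∈ (univ : Finset (Fin m)), f i x ∈ (univ.erase x : Finset (Fin m)) := by
        intro i _
        simp [hcon i]
      obtain ⟨i, _, j, _, hij, he⟩ := exists_ne_map_eq_of_card_lt_of_maps_to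
        (s := (univ : Finset (Fin m))) (t := univ.erase x)
        (by rw [card_erase_of_mem (mem_univ _), card_univ, Fintype.card_fin]
            have := x.pos; omega) hmaps
      exact hij (inj0 x i j (hcon i) he)
    · obtain ⟨i, hi, _⟩ := h4 s(x, y) (by simpa using hxy)
      exact ⟨i, hf1 i x y hi⟩
  refine ⟨f, z, inv, ?_, hz, hFe⟩
  intro x i j hij
  have hs : Function.Surjective (fun i => f i x) := fun y => surj x y
  exact (Finite.injective_iff_surjective.mpr hs) hij

theorem orb_of_ham {m : ℕ} {f g : Fin m → Fin m} (hf : ∀ x, f (f x) = x) (hg : ∀ x, g (g x) = x)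
    (h : HamPair (fe f) (fe g)) : ∃ b, ∀ x, Orb f g b x := by
  classical
  obtain ⟨u, v, p, hp, he⟩ := h
  refine ⟨u, fun x => ?_⟩
  have key : ∀ (u v : Fin m) (p : (⊤ : SimpleGraph (Fin m)).Walk u v),
      (∀ e ∈ p.edges, e ∈ fe f ∪ fe g) → ∀ x ∈ p.support, Orb f g u x := by
    intro u v p
    induction p with
    | nil =>
      intro _ x hx
      rw [SimpleGraph.Walk.support_nil, List.mem_singleton] at hx
      rw [hx]
      exact Orb.base
    | @cons u w v hadj q ih =>
      intro hE x hx
      rw [SimpleGraph.Walk.support_cons, List.mem_cons] at hx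
      rcases hx with rfl | hx
      · exact Orb.base
      · have h1 := ih (fun e he => hE e (by rw [SimpleGraph.Walk.edges_cons]; exact List.mem_cons_of_mem _ he)) x hx
        have h2 := hE s(u, w) (by rw [SimpleGraph.Walk.edges_cons]; exact List.mem_cons_self)
        rw [mem_union, mk_mem_fe hf, mk_mem_fe hg] at h2
        rcases h2 with ⟨_, rfl⟩ | ⟨_, rfl⟩
        · exact Orb.trans' (Orb.base.stepf) h1
        · exact Orb.trans' (Orb.base.stepg) h1
  exact key u v p (fun e h => by rw [← he]; exact List.mem_toFinset.mpr h) x (hp.mem_support x)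

/-- Invariant subsets of any even size. -/
theorem invariant_subset {V : Type*} [Fintype V] [DecidableEq V] {f : V → V}
    (hf : ∀ x, f (f x) = x) {z : V} (hz : ∀ x, f x = x ↔ x = z) (k : ℕ)
    (hk : 2 * k + 1 ≤ Fintype.card V) :
    ∃ A : Finset V, z ∉ A ∧ (∀ x, f x ∈ A ↔ x ∈ A) ∧ A.card = 2 * k := by
  induction k with
  | zero => exact ⟨∅, by simp, by simp, by simp⟩
  | succ k ih =>
    obtain ⟨A, hA1, hA2, hA3⟩ := ih (by omega)
    have hlt : (insert z A).card < (univ : Finset V).card := by
      rw [card_insert_of_notMem hA1, hA3, card_univ]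
      omega
    obtain ⟨x, _, hx⟩ := exists_mem_notMem_of_card_lt_card hlt
    rw [mem_insert, not_or] at hx
    have hfx : f x ≠ x := fun h => hx.1 ((hz x).mp h)
    have hfxz : f x ≠ z := by
      intro h
      have h1 : f z = z := (hz z).mpr rfl
      have h2 := hf x
      rw [h, h1] at h2
      exact hx.1 h2.symm
    have hfxA : f x ∉ A := fun h => hx.2 ((hA2 x).mp h)
    refine ⟨insert x (insert (f x) A), ?_, ?_, ?_⟩
    · simp only [mem_insert, not_or]
      exact ⟨fun h => hx.1 h.symm, fun h => hfxz h.symm, hA1⟩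
    · intro y
      simp only [mem_insert, hA2]
      constructor
      · rintro (h | h | h)
        · right; left; rw [← h, hf]
        · left; rw [← hf y, h, hf]
        · right; right; exact h
      · rintro (h | h | h)
        · right; left; rw [h]
        · left; rw [h, hf]
        · right; right; exact h
    · rw [card_insert_of_notMem, card_insert_of_notMem hfxA, hA3]
      · ring
      · simp only [mem_insert, not_or]
        exact ⟨fun h => hfx h.symm, hx.2⟩

theorem isUnit_two {P : ℕ} (hP : Odd P) : IsUnit (2 : ZMod P) := by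
  have := (ZMod.isUnit_iff_coprime 2 P).mpr (Nat.coprime_two_left.mpr hP)
  simpa using this

/-- Coefficients that are units, symmetric and of sum zero. -/
theorem exists_coeff {V : Type*} [Fintype V] [DecidableEq V] {f : V → V}
    (hf : ∀ x, f (f x) = x) {z : V} (hz : ∀ x, f x = x ↔ x = z) {P : ℕ} (hP : Odd P)
    (hV : Odd (Fintype.card V)) (hV3 : 3 ≤ Fintype.card V) :
    ∃ α : V → ZMod P, (∀ x, α (f x) = α x) ∧ (∀ x, IsUnit (α x)) ∧ ∑ x, α x = 0 := by
  classical
  obtain ⟨h, hh⟩ := hV
  set j := (h + 2) / 2 with hj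
  obtain ⟨A, hA1, hA2, hA3⟩ := invariant_subset hf hz j (by omega)
  have h2u := isUnit_two hP
  have hfz : ∀ x, f x = z ↔ x = z := by
    intro x
    constructor
    · intro h'
      have h1 : f z = z := (hz z).mpr rfl
      have h2 := hf x
      rw [h', h1] at h2
      exact h2.symm
    · rintro rfl
      exact (hz x).mpr rfl
  set t : ℤ := 2 * (j : ℤ) - h with ht
  have htv : t = 1 ∨ t = 2 := by omega
  refine ⟨fun x => if x = z then -2 * (t : ZMod P) else if x ∈ A then 1 else -1, ?_, ?_, ?_⟩
  · intro x
    simp only [hfz, hA2]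
  · intro x
    show IsUnit (if x = z then -2 * (t : ZMod P) else if x ∈ A then 1 else -1)
    split_ifs
    · rcases htv with h1 | h1
      · rw [h1]
        simpa using h2u.neg
      · rw [h1]
        push_cast
        exact h2u.neg.mul h2u
    · exact isUnit_one
    · exact isUnit_one.neg
  · rw [← Finset.add_sum_erase _ _ (mem_univ z)]
    simp only [if_true]
    have h3 : ∑ x ∈ univ.erase z, (if x = z then -2 * (t : ZMod P) else if x ∈ A then 1 else -1)
        = ∑ x ∈ univ.erase z, ((if x ∈ A then (2 : ZMod P) else 0) - 1) := by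
      apply sum_congr rfl
      intro x hx
      rw [mem_erase] at hx
      rw [if_neg hx.1]
      split_ifs <;> ring
    rw [h3, sum_sub_distrib, ← sum_filter]
    have h4 : (univ.erase z).filter (fun x => x ∈ A) = A := by
      ext x
      simp only [mem_filter, mem_erase, mem_univ, and_true]
      exact ⟨fun h => h.2, fun h => ⟨fun h' => hA1 (h' ▸ h), h⟩⟩
    rw [h4, sum_const, sum_const, hA3, card_erase_of_mem (mem_univ _), card_univ, hh,
      Nat.add_sub_cancel, nsmul_eq_mul, nsmul_eq_mul]
    have h5 : (t : ZMod P) = 2 * (j : ZMod P) - (h : ZMod P) := by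
      rw [ht]; push_cast; ring
    rw [h5]
    push_cast
    ring

/-- **Product theorem.** -/
theorem product {m P : ℕ} (hm : Odd m) (hm3 : 3 ≤ m) (hP : Odd P)
    (F : Fin m → Finset (Sym2 (Fin m))) (hF : IsNearFactorization m F) (s : Fin m → ZMod P) :
    ∃ G : Fin (m * P) → Finset (Sym2 (Fin (m * P))), IsNearFactorization (m * P) G ∧
      ∃ e : Fin m × ZMod P ≃ Fin (m * P), ∀ (a b : Fin m) (c d : ZMod P),
        HamPair (F a) (F b) → IsUnit (s a - s b) → HamPair (G (e (a, c))) (G (e (b, d))) := by
  classical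
  have hP0 : NeZero P := ⟨by rintro rfl; exact absurd hP (by decide)⟩
  obtain ⟨f, z, inv, inj, fix, hFe⟩ := involutions hm hF
  have hco : ∀ a, ∃ α : Fin m → ZMod P, (∀ x, α (f a x) = α x) ∧ (∀ x, IsUnit (α x)) ∧
      ∑ x, α x = 0 := fun a => exists_coeff (inv a) (fix a) hP (by rwa [Fintype.card_fin])
        (by rwa [Fintype.card_fin])
  choose α hα1 hα2 hα3 using hco
  have hfz : ∀ a x, f a x = z a ↔ x = z a := by
    intro a x
    constructor
    · intro h
      have h1 : f a (z a) = z a := (fix a _).mpr rfl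
      have h2 := inv a x
      rw [h, h1] at h2
      exact h2.symm
    · rintro rfl
      exact (fix a _).mpr rfl
  let w : Fin m → ZMod P → Fin m → ZMod P := fun a c u =>
    α a u * c + if u = z a then s a else 0
  have hw : ∀ a c u, w a c (f a u) = w a c u := by
    intro a c u
    simp only [w, hα1, hfz]
  have hwsum : ∀ a c, ∑ u, w a c u = s a := by
    intro a c
    simp only [w, sum_add_distrib, ← sum_mul, hα3, zero_mul, zero_add]
    simp
  obtain ⟨τ, hτ⟩ := isUnit_two hP
  let g : Fin m × ZMod P → Fin m × ZMod P → Fin m × ZMod P := fun i p =>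
    (f i.1 p.1, w i.1 i.2 p.1 - p.2)
  let ctr : Fin m × ZMod P → Fin m × ZMod P := fun i =>
    (z i.1, (τ⁻¹ : (ZMod P)ˣ) * w i.1 i.2 (z i.1))
  have ginv : ∀ i p, g i (g i p) = p := by
    rintro ⟨a, c⟩ ⟨u, x⟩
    simp only [g, inv, hw]
    ext
    · rfl
    · simp
  have ginj : ∀ p i j, g i p = g j p → i = j := by
    rintro ⟨u, x⟩ ⟨a, c⟩ ⟨b, d⟩ h
    simp only [g, Prod.mk.injEq] at h
    obtain ⟨h1, h2⟩ := h
    have hab := inj u a b h1
    subst hab
    have h3 : α a u * c = α a u * d := by
      have : w a c u = w a d u := by linear_combination h2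
      simp only [w] at this
      linear_combination this
    rw [(hα2 a u).mul_left_cancel h3]
  have gfix : ∀ i p, g i p = p ↔ p = ctr i := by
    rintro ⟨a, c⟩ ⟨u, x⟩
    simp only [g, ctr, Prod.mk.injEq, fix]
    constructor
    · rintro ⟨rfl, h⟩
      refine ⟨rfl, ?_⟩
      rw [Units.eq_inv_mul_iff_mul_eq, hτ]
      linear_combination -h
    · rintro ⟨rfl, h⟩
      refine ⟨rfl, ?_⟩
      rw [Units.eq_inv_mul_iff_mul_eq, hτ] at h
      linear_combination -h
  obtain ⟨G, hG, e, he⟩ := exists_near (V := Fin m × ZMod P) (n := m * P)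
    (by rw [Fintype.card_prod, Fintype.card_fin, ZMod.card]) g ginv ginj ctr gfix
  refine ⟨G, hG, e, ?_⟩
  intro a b c d hab hu
  rw [hFe a, hFe b] at hab
  obtain ⟨b0, hb0⟩ := orb_of_ham (inv a) (inv b) hab
  refine he (a, c) (b, d) ⟨(z a, 0), fun p => ?_⟩
  have hD : IsUnit (∑ u, w b d u - ∑ u, w a c u) := by
    rw [hwsum, hwsum]
    have := hu.neg
    rwa [neg_sub] at this
  exact skew_orb (inv a) (inv b) ((fix a _).mpr rfl) hb0 (w a c) (w b d) hD p

/-- **Every odd `n`.** -/
theorem least_prime {n : ℕ} (hn : Odd n) (hn3 : 3 ≤ n) :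
    ∃ F : Fin n → Finset (Sym2 (Fin n)), IsNearFactorization n F ∧
      ∃ cls : Fin n → Fin n.minFac,
        (∀ k, (univ.filter (fun i => cls i = k)).card = n / n.minFac) ∧
        ∀ i j, cls i ≠ cls j → HamPair (F i) (F j) := by
  classical
  set r := n.minFac with hr
  have hrp : r.Prime := Nat.minFac_prime (by omega)
  have hrd : r ∣ n := Nat.minFac_dvd n
  have hro : Odd r := by
    rcases hrp.eq_two_or_odd' with h | h
    · rw [h] at hrd
      rcases hn with ⟨t, ht⟩
      omega
    · exact h
  have hr3 : 3 ≤ r := by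
    have := hrp.two_le
    rcases hro with ⟨t, ht⟩
    omega
  obtain ⟨P, hP⟩ := hrd
  have hPodd : Odd P := by
    have : Odd (r * P) := hP ▸ hn
    exact (Nat.odd_mul.mp this).2
  have hP0 : 0 < P := hPodd.pos
  have hNe : NeZero P := ⟨hP0.ne'⟩
  have hdiv : n / r = P := by
    rw [hP]; exact Nat.mul_div_cancel_left P hrp.pos
  have hminle : ∀ q : ℕ, q.Prime → q ∣ P → r ≤ q := by
    intro q hq hqP
    exact Nat.minFac_le_of_dvd hq.two_le (hP ▸ Dvd.dvd.mul_left hqP r)
  obtain ⟨F0, hF0, I, hI, hpair⟩ := Pool.Agent.Helper53.P1F.prime_case hrp hro hro le_rfl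
    (by omega : r < 2 * r)
  have hIu : I = univ := by
    rw [← card_eq_iff_eq_univ, hI, Fintype.card_fin]
  obtain ⟨G, hG, e, he⟩ := product hro hr3 hPodd F0 hF0 (fun a => ((a : ℕ) : ZMod P))
  have hunit : ∀ a b : Fin r, a ≠ b →
      IsUnit ((((a : ℕ) : ZMod P)) - (((b : ℕ) : ZMod P))) := by
    have key : ∀ a b : Fin r, b < a → IsUnit ((((a : ℕ) : ZMod P)) - (((b : ℕ) : ZMod P))) := by
      intro a b hab
      have hab' : (b : ℕ) < (a : ℕ) := hab
      have : ((((a : ℕ) : ZMod P)) - (((b : ℕ) : ZMod P))) = (((a : ℕ) - (b : ℕ) : ℕ) : ZMod P) := by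
        rw [Nat.cast_sub hab'.le]
      rw [this, ZMod.isUnit_iff_coprime]
      apply Nat.Coprime.symm
      rw [Nat.coprime_comm]
      apply Nat.coprime_of_dvd
      intro q hq h1 h2
      have h3 := hminle q hq h2
      have h4 := Nat.le_of_dvd (by omega) h1
      have := a.isLt
      omega
    intro a b hab
    rcases lt_or_gt_of_ne hab with h | h
    · have := (key b a h).neg
      rwa [neg_sub] at this
    · exact key a b h
  have hmain : ∃ F : Fin (r * P) → Finset (Sym2 (Fin (r * P))), IsNearFactorization (r * P) F ∧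
      ∃ cls : Fin (r * P) → Fin r,
        (∀ k, (univ.filter (fun i => cls i = k)).card = P) ∧
        ∀ i j, cls i ≠ cls j → HamPair (F i) (F j) := by
    refine ⟨G, hG, fun i => (e.symm i).1, ?_, ?_⟩
    · intro k
      have h1 : univ.filter (fun i => (e.symm i).1 = k) =
          (univ : Finset (ZMod P)).image (fun c => e (k, c)) := by
        ext i
        simp only [mem_filter, mem_univ, true_and, mem_image]
        constructor
        · rintro rfl
          exact ⟨(e.symm i).2, by simp⟩
        · rintro ⟨c, rfl⟩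
          simp
      rw [h1, card_image_of_injective, card_univ, ZMod.card]
      intro c d hcd
      have := e.injective hcd
      simpa using this
    · intro i j hij
      have h1 := he (e.symm i).1 (e.symm j).1 (e.symm i).2 (e.symm j).2
        (hpair _ (by rw [hIu]; exact mem_univ _) _ (by rw [hIu]; exact mem_univ _) hij)
        (hunit _ _ hij)
      simpa using h1
  rw [hdiv]
  clear_value r
  subst hP
  exact hmain

end Pool.Agent.Helper23.KC
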