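import Mathlib
import Pool.Agent.Helper53.P1F.System
import Pool.Agent.Helper23.KC.Skew
import Pool.Agent.Helper23.KC.Product

set_option autoImplicit false

/-!
# Towers of skew products
-/

namespace Pool.Agent.Helper23.KC

open Finset Pool.Agent.Helper53.P1F

theorem zsum {p : ℕ} [NeZero p] {M : Type*} [AddCommMonoid M] (g : ZMod p → M) :
    ∑ t ∈ range p, g (t : ZMod p) = ∑ z : ZMod p, g z := by
  refine sum_bij' (fun t _ => (t : ZMod p)) (fun z _ => z.val) ?_ ?_ ?_ ?_ ?_
  · intro a _; exact mem_univ _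
  · intro z _; exact mem_range.mpr (ZMod.val_lt z)
  · intro a ha; exact ZMod.val_cast_of_lt (mem_range.mp ha)
  · intro z _; exact ZMod.natCast_zmod_val z
  · intro a _; rfl

theorem zsum_shift {p : ℕ} [NeZero p] {M : Type*} [AddCommMonoid M] (g : ZMod p → M) {D : ZMod p}
    (hD : IsUnit D) (y : ZMod p) :
    ∑ t ∈ range p, g (y + (t : ZMod p) * D) = ∑ z : ZMod p, g z := by
  rw [zsum (fun t => g (y + t * D))]
  obtain ⟨E, rfl⟩ := hD
  exact Fintype.sum_bijective (fun t => y + t * (E : ZMod p))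
    ⟨fun a b h => by
      have h1 : a * (E : ZMod p) = b * E := add_left_cancel h
      exact (Units.mul_left_inj E).mp h1,
     fun z => ⟨(z - y) * (E⁻¹ : (ZMod p)ˣ), by
      show y + (z - y) * ((E⁻¹ : (ZMod p)ˣ) : ZMod p) * E = z
      rw [mul_assoc, Units.inv_mul]; ring⟩⟩ _ _ (fun _ => rfl)

theorem sum_range_mul {M : Type*} [AddCommMonoid M] (F : ℕ → M) (l k : ℕ) :
    ∑ i ∈ range (l * k), F i = ∑ t ∈ range k, ∑ j ∈ range l, F (l * t + j) := by
  induction k with
  | zero => simp
  | succ k ih =>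
    rw [Nat.mul_succ, sum_range_add, ih, sum_range_succ]

section Skew

variable {V : Type} [Fintype V] [DecidableEq V] {p : ℕ} [NeZero p]

theorem skew_mul {h : V → V} {d : V → ZMod p} {l : ℕ} {u : V} (hper : h^[l] u = u) (x : ZMod p)
    (t : ℕ) :
    (fun w : V × ZMod p => (h w.1, w.2 + d w.1))^[l * t] (u, x) =
      (u, x + (t : ZMod p) * ∑ i ∈ range l, d (h^[i] u)) := by
  induction t with
  | zero => simp
  | succ t ih =>
    rw [Nat.mul_succ, Nat.add_comm, Function.iterate_add_apply, ih, iterate_skew, hper]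
    push_cast
    ext
    · rfl
    · simp only
      ring

theorem skew_cycle_sum {h : V → V} {d : V → ZMod p} {l : ℕ} {u : V} (hper : h^[l] u = u)
    (hD : IsUnit (∑ i ∈ range l, d (h^[i] u))) (x : ZMod p) (Φ : V × ZMod p → ℤ) :
    ∑ i ∈ range (l * p), Φ ((fun w : V × ZMod p => (h w.1, w.2 + d w.1))^[i] (u, x)) =
      ∑ j ∈ range l, ∑ z : ZMod p, Φ (h^[j] u, z) := by
  rw [sum_range_mul, sum_comm]
  apply sum_congr rfl
  intro j _
  rw [← zsum_shift (fun z => Φ (h^[j] u, z)) hD (x + ∑ i ∈ range j, d (h^[i] u))]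
  apply sum_congr rfl
  intro t _
  rw [Nat.add_comm, Function.iterate_add_apply, skew_mul hper, iterate_skew]
  congr 2
  ring

theorem skew_per {h : V → V} {d : V → ZMod p} {l : ℕ} {u : V} (hper : ∀ i, h^[i] u = u ↔ l ∣ i)
    (hD : IsUnit (∑ i ∈ range l, d (h^[i] u))) (x : ZMod p) (i : ℕ) :
    (fun w : V × ZMod p => (h w.1, w.2 + d w.1))^[i] (u, x) = (u, x) ↔ l * p ∣ i := by
  have hl : h^[l] u = u := (hper l).mpr dvd_rfl
  constructor
  · intro hi
    have h1 := congrArg Prod.fst hi
    rw [iterate_skew] at h1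
    simp only at h1
    obtain ⟨t, rfl⟩ := (hper i).mp h1
    rw [skew_mul hl] at hi
    have h2 := congrArg Prod.snd hi
    simp only [add_eq_left] at h2
    have h3 : (t : ZMod p) = 0 := by
      rwa [hD.mul_left_eq_zero] at h2
    rw [ZMod.natCast_eq_zero_iff] at h3
    exact Nat.mul_dvd_mul_left l h3
  · rintro ⟨t, rfl⟩
    rw [mul_assoc, skew_mul hl]
    simp

end Skew

/-- The data carried along a tower. -/
structure Sys (q : ℕ) (V : Type) [Fintype V] [DecidableEq V] (f : V → V → V) (α β : V → V → ℤ)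
    (ℓ : V → V → ℕ) : Prop where
  inv : ∀ a u, f a (f a u) = u
  inj : ∀ u a b, f a u = f b u → a = b
  fix : ∀ a, ∃ z, ∀ u, f a u = u ↔ u = z
  αinv : ∀ a u, α a (f a u) = α a u
  βinv : ∀ a u, β a (f a u) = β a u
  αne : ∀ a u (p : ℕ), p.Prime → q ≤ p → ¬ (p : ℤ) ∣ α a u
  pos : ∀ a b, a ≠ b → q ≤ ℓ a b
  per : ∀ a b, a ≠ b → ∀ u i, (fun y => f b (f a y))^[i] u = u ↔ ℓ a b ∣ i
  αsum : ∀ a b, a ≠ b → ∀ u, ∑ i ∈ range (ℓ a b), α a ((fun y => f b (f a y))^[i] u) = 0
  αsum' : ∀ a b, a ≠ b → ∀ u, ∑ i ∈ range (ℓ a b), α b (f a ((fun y => f b (f a y))^[i] u)) = 0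
  βsum : ∀ a b, a ≠ b → ∀ u (p : ℕ), p.Prime → q ≤ p →
    ¬ (p : ℤ) ∣ ∑ i ∈ range (ℓ a b), (β b (f a ((fun y => f b (f a y))^[i] u)) -
      β a ((fun y => f b (f a y))^[i] u))

theorem Sys.base :
    Sys 0 Unit (fun _ u => u) (fun _ _ => 1) (fun _ _ => 0) (fun _ _ => 1) where
  inv := fun _ _ => rfl
  inj := fun _ _ _ _ => rfl
  fix := fun _ => ⟨(), fun _ => by simp⟩
  αinv := fun _ _ => rfl
  βinv := fun _ _ => rfl
  αne := by
    intro _ _ p hp _ h
    have := Int.natCast_dvd_natCast.mp (show (p : ℤ) ∣ ((1 : ℕ) : ℤ) by simpa using h)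
    exact hp.one_lt.ne' (Nat.dvd_one.mp this)
  pos := fun a b h => absurd (Subsingleton.elim a b) h
  per := fun a b h => absurd (Subsingleton.elim a b) h
  αsum := fun a b h => absurd (Subsingleton.elim a b) h
  αsum' := fun a b h => absurd (Subsingleton.elim a b) h
  βsum := fun a b h => absurd (Subsingleton.elim a b) h

section Step

variable {V : Type} [Fintype V] [DecidableEq V]

/-- shift -/
def sw (p : ℕ) (α β : V → V → ℤ) (i : V × ZMod p) (u : V) : ZMod p :=
  (α i.1 u : ZMod p) * i.2 + (β i.1 u : ZMod p)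

/-- new involutions -/
def sf (p : ℕ) (f : V → V → V) (α β : V → V → ℤ) (i w : V × ZMod p) : V × ZMod p :=
  (f i.1 w.1, sw p α β i w.1 - w.2)

/-- new coefficients -/
def sα (p : ℕ) (α β : V → V → ℤ) (i w : V × ZMod p) : ℤ :=
  if 2 * w.2 = sw p α β i w.1 then 1 - p else 1

/-- new constants -/
def sβ (p : ℕ) (α β : V → V → ℤ) (i w : V × ZMod p) : ℤ :=
  if 2 * w.2 = sw p α β i w.1 then β i.1 w.1 + (i.2.val : ℤ) * α i.1 w.1 else 0

/-- new lengths -/
def sℓ (p : ℕ) (ℓ : V → V → ℕ) (i j : V × ZMod p) : ℕ :=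
  (if i.1 = j.1 then 1 else ℓ i.1 j.1) * p

theorem fib_sum {p : ℕ} [NeZero p] (hp : Odd p) (w : ZMod p) (c : ℤ) :
    ∑ z : ZMod p, (if 2 * z = w then c else 0) = c := by
  obtain ⟨τ, hτ⟩ := isUnit_two hp
  have : ∀ z : ZMod p, 2 * z = w ↔ z = (τ⁻¹ : (ZMod p)ˣ) * w := by
    intro z
    rw [Units.eq_inv_mul_iff_mul_eq, hτ]
  simp only [this]
  rw [sum_ite_eq' univ _ (fun _ => c), if_pos (mem_univ _)]

theorem Sys.step {q : ℕ} {f : V → V → V} {α β : V → V → ℤ} {ℓ : V → V → ℕ}
    (S : Sys q V f α β ℓ) {p : ℕ} (hp : p.Prime) (hp2 : Odd p) (hqp : q ≤ p) [NeZero p] :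
    Sys p (V × ZMod p) (sf p f α β) (sα p α β) (sβ p α β) (sℓ p ℓ) := by
  have : Fact p.Prime := ⟨hp⟩
  obtain ⟨τ, hτ⟩ := isUnit_two hp2
  have swinv : ∀ i u, sw p α β i (f i.1 u) = sw p α β i u := by
    intro i u
    simp only [sw, S.αinv, S.βinv]
  have αu : ∀ a u, IsUnit ((α a u : ℤ) : ZMod p) := by
    intro a u
    rw [isUnit_iff_ne_zero, Ne, ZMod.intCast_zmod_eq_zero_iff_dvd]
    exact S.αne a u p hp hqp
  -- uniform description of the base
  have base : ∀ a b : V, ∀ u i, (fun y => f b (f a y))^[i] u = u ↔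
      (if a = b then 1 else ℓ a b) ∣ i := by
    intro a b u i
    by_cases hab : a = b
    · subst hab
      rw [if_pos rfl]
      have : (fun y => f a (f a y)) = id := by funext y; exact S.inv a y
      rw [this]
      simp
    · rw [if_neg hab]
      exact S.per a b hab u i
  set δ : V × ZMod p → V × ZMod p → V → ZMod p := fun i j u =>
    sw p α β j (f i.1 u) - sw p α β i u with hδ
  have hcomp : ∀ i j : V × ZMod p, (fun w => sf p f α β j (sf p f α β i w)) =
      (fun w : V × ZMod p => ((fun y => f j.1 (f i.1 y)) w.1, w.2 + δ i j w.1)) := by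
    intro i j
    funext w
    simp only [sf, hδ]
    ext
    · rfl
    · simp only
      ring
  have hD : ∀ i j : V × ZMod p, i ≠ j → ∀ u,
      IsUnit (∑ k ∈ range (if i.1 = j.1 then 1 else ℓ i.1 j.1),
        δ i j ((fun y => f j.1 (f i.1 y))^[k] u)) := by
    rintro ⟨a, c⟩ ⟨b, d⟩ hij u
    by_cases hab : a = b
    · subst hab
      have hcd : d - c ≠ 0 := by
        intro h
        apply hij
        rw [sub_eq_zero.mp h]
      simp only [if_true, range_one, sum_singleton, Function.iterate_zero, id_eq, hδ]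
      have h1 : sw p α β (a, d) (f a u) - sw p α β (a, c) u = (α a u : ZMod p) * (d - c) := by
        rw [show f a u = f (a, d).1 u from rfl, swinv]
        simp only [sw]
        ring
      rw [h1]
      exact (αu a u).mul (isUnit_iff_ne_zero.mpr hcd)
    · simp only [if_neg hab]
      rw [isUnit_iff_ne_zero]
      have h1 : ∑ k ∈ range (ℓ a b), δ (a, c) (b, d) ((fun y => f b (f a y))^[k] u) =
          ((∑ k ∈ range (ℓ a b), (β b (f a ((fun y => f b (f a y))^[k] u)) -
            β a ((fun y => f b (f a y))^[k] u)) : ℤ) : ZMod p) +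
          ((∑ k ∈ range (ℓ a b), α b (f a ((fun y => f b (f a y))^[k] u)) : ℤ) : ZMod p) * d -
          ((∑ k ∈ range (ℓ a b), α a ((fun y => f b (f a y))^[k] u) : ℤ) : ZMod p) * c := by
        push_cast
        rw [sum_mul, sum_mul, ← sum_add_distrib, ← sum_sub_distrib]
        apply sum_congr rfl
        intro k _
        simp only [hδ, sw]
        ring
      rw [h1, S.αsum a b hab, S.αsum' a b hab]
      simp only [Int.cast_zero, zero_mul, add_zero, sub_zero]
      rw [Ne, ZMod.intCast_zmod_eq_zero_iff_dvd]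
      exact S.βsum a b hab u p hp hqp
  have cyc : ∀ i j : V × ZMod p, i ≠ j → ∀ (w : V × ZMod p) (Φ : V × ZMod p → ℤ),
      ∑ k ∈ range (sℓ p ℓ i j), Φ ((fun w => sf p f α β j (sf p f α β i w))^[k] w) =
      ∑ k ∈ range (if i.1 = j.1 then 1 else ℓ i.1 j.1), ∑ z : ZMod p,
        Φ ((fun y => f j.1 (f i.1 y))^[k] w.1, z) := by
    intro i j hij w Φ
    rw [hcomp]
    exact skew_cycle_sum ((base i.1 j.1 w.1 _).mpr dvd_rfl) (hD i j hij w.1) w.2 Φ
  have fibα : ∀ i v, ∑ z : ZMod p, sα p α β i (v, z) = 0 := by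
    intro i v
    have h1 : ∀ z : ZMod p, sα p α β i (v, z) =
        1 - (if 2 * z = sw p α β i v then (p : ℤ) else 0) := by
      intro z
      simp only [sα]
      split_ifs <;> ring
    simp only [h1, sum_sub_distrib]
    rw [fib_sum hp2]
    simp [ZMod.card]
  have fibβ : ∀ i v, ∑ z : ZMod p, sβ p α β i (v, z) = β i.1 v + (i.2.val : ℤ) * α i.1 v := by
    intro i v
    simp only [sβ]
    exact fib_sum hp2 _ _
  have flip : ∀ (i : V × ZMod p) (v : V) (Ψ : V × ZMod p → ℤ),
      ∑ z : ZMod p, Ψ (sf p f α β i (v, z)) = ∑ z : ZMod p, Ψ (f i.1 v, z) := by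
    intro i v Ψ
    exact Fintype.sum_equiv (Equiv.subLeft (sw p α β i v)) _ _ (fun z => rfl)
  refine ⟨?_, ?_, ?_, ?_, ?_, ?_, ?_, ?_, ?_, ?_, ?_⟩
  · rintro i ⟨u, x⟩
    simp only [sf, S.inv, swinv]
    ext
    · rfl
    · simp
  · rintro ⟨u, x⟩ ⟨a, c⟩ ⟨b, d⟩ h
    simp only [sf, Prod.mk.injEq] at h
    obtain ⟨h1, h2⟩ := h
    have hab := S.inj u a b h1
    subst hab
    have h3 : (α a u : ZMod p) * c = (α a u : ZMod p) * d := by
      simp only [sw] at h2
      linear_combination h2
    rw [(αu a u).mul_left_cancel h3]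
  · rintro ⟨a, c⟩
    obtain ⟨z, hz⟩ := S.fix a
    refine ⟨(z, (τ⁻¹ : (ZMod p)ˣ) * sw p α β (a, c) z), ?_⟩
    rintro ⟨u, x⟩
    simp only [sf, Prod.mk.injEq, hz]
    constructor
    · rintro ⟨rfl, h⟩
      refine ⟨rfl, ?_⟩
      rw [Units.eq_inv_mul_iff_mul_eq, hτ]
      linear_combination -h
    · rintro ⟨rfl, h⟩
      refine ⟨rfl, ?_⟩
      rw [Units.eq_inv_mul_iff_mul_eq, hτ] at h
      linear_combination -h
  · rintro i ⟨u, x⟩
    simp only [sα, sf, swinv]
    have : 2 * (sw p α β i u - x) = sw p α β i u ↔ 2 * x = sw p α β i u := by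
      constructor <;> intro h <;> linear_combination -h
    simp only [this]
  · rintro i ⟨u, x⟩
    simp only [sβ, sf, swinv, S.αinv, S.βinv]
    have : 2 * (sw p α β i u - x) = sw p α β i u ↔ 2 * x = sw p α β i u := by
      constructor <;> intro h <;> linear_combination -h
    simp only [this]
  · rintro i w r hr hpr
    simp only [sα]
    have hp1 := hp.one_lt
    split_ifs
    · intro h
      have h1 : (r : ℤ) ∣ ((p - 1 : ℕ) : ℤ) := by
        rw [Nat.cast_sub hp1.le]
        have := (dvd_neg (a := (r : ℤ))).mpr h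
        simpa using this
      have h2 := Nat.le_of_dvd (by omega) (Int.natCast_dvd_natCast.mp h1)
      omega
    · intro h
      have := Int.natCast_dvd_natCast.mp (show (r : ℤ) ∣ ((1 : ℕ) : ℤ) by simpa using h)
      exact hr.one_lt.ne' (Nat.dvd_one.mp this)
  · rintro ⟨a, c⟩ ⟨b, d⟩ hij
    simp only [sℓ]
    have h1 : 1 ≤ (if a = b then 1 else ℓ a b) := by
      split_ifs with hab
      · exact le_rfl
      · rcases Nat.eq_zero_or_pos (ℓ a b) with h0 | h0
        · exfalso
          -- a finite permutation has positive periods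
          have hinj : Function.Injective (fun y => f b (f a y)) := by
            intro x y hxy
            have h2 := congrArg (f b) hxy
            simp only [S.inv] at h2
            have h3 := congrArg (f a) h2
            simpa only [S.inv] using h3
          obtain ⟨k, hk, hk'⟩ := Function.Injective.mem_periodicPts hinj a
          have h4 := (S.per a b hab a k).mp hk'
          rw [h0] at h4
          have := Nat.eq_zero_of_zero_dvd h4
          omega
        · exact h0
    calc p = 1 * p := (one_mul p).symm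
      _ ≤ _ := Nat.mul_le_mul_right p h1
  · rintro i j hij ⟨u, x⟩ k
    rw [hcomp]
    exact skew_per (base i.1 j.1 u) (hD i j hij u) x k
  · rintro i j hij w
    rw [cyc i j hij w (fun w => sα p α β i w)]
    simp only [fibα, sum_const_zero]
  · rintro i j hij w
    rw [cyc i j hij w (fun w => sα p α β j (sf p f α β i w))]
    simp only [flip i _ (fun w => sα p α β j w), fibα, sum_const_zero]
  · rintro ⟨a, c⟩ ⟨b, d⟩ hij w r hr hpr
    rw [cyc (a, c) (b, d) hij w
      (fun w => sβ p α β (b, d) (sf p f α β (a, c) w) - sβ p α β (a, c) w)]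
    simp only [sum_sub_distrib, flip (a, c) _ (fun w => sβ p α β (b, d) w), fibβ]
    by_cases hab : a = b
    · subst hab
      simp only [if_true, range_one, sum_singleton, Function.iterate_zero, id_eq, S.αinv, S.βinv]
      have h1 : β a w.1 + (d.val : ℤ) * α a w.1 - (β a w.1 + (c.val : ℤ) * α a w.1) =
          ((d.val : ℤ) - c.val) * α a w.1 := by ring
      rw [h1]
      intro h
      rcases (Nat.prime_iff_prime_int.mp hr).dvd_or_dvd h with h2 | h2
      · have h3 : ((d.val : ℤ) - c.val) ≠ 0 := by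
          intro h4
          apply hij
          have : d.val = c.val := by omega
          rw [ZMod.val_injective p this]
        have h5 := Int.le_of_dvd (abs_pos.mpr h3) ((dvd_abs _ _).mpr h2)
        have h6 := ZMod.val_lt c
        have h7 := ZMod.val_lt d
        have h8 : |((d.val : ℤ) - c.val)| < p := by
          rw [abs_lt]
          constructor <;> omega
        omega
      · exact S.αne a w.1 r hr (hqp.trans hpr) h2
    · simp only [if_neg hab]
      have h1 : ∑ k ∈ range (ℓ a b), (β b (f a ((fun y => f b (f a y))^[k] w.1)) +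
            (d.val : ℤ) * α b (f a ((fun y => f b (f a y))^[k] w.1))) -
          ∑ k ∈ range (ℓ a b), (β a ((fun y => f b (f a y))^[k] w.1) +
            (c.val : ℤ) * α a ((fun y => f b (f a y))^[k] w.1)) =
          ∑ k ∈ range (ℓ a b), (β b (f a ((fun y => f b (f a y))^[k] w.1)) -
            β a ((fun y => f b (f a y))^[k] w.1)) := by
        simp only [sum_add_distrib, ← mul_sum, S.αsum a b hab, S.αsum' a b hab, mul_zero, add_zero,
          sum_sub_distrib]
      rw [h1]
      exact S.βsum a b hab w.1 r hr (hqp.trans hpr)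

end Step

end Pool.Agent.Helper23.KC
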