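import Mathlib
import Pool.Agent.Helper53.P1F.System
import Pool.Agent.Helper23.KC.Tower
import Pool.Agent.Helper23.KC.Comp

set_option autoImplicit false

/-!
# Few components for all pairs
-/

namespace Pool.Agent.Helper23.KC

open Finset Pool.Agent.Helper53.P1F

theorem tower (L : List ℕ) (hs : L.Pairwise (fun a b => b ≤ a)) (hL : ∀ p ∈ L, p.Prime ∧ Odd p) :
    ∃ (V : Type) (_ : Fintype V) (_ : DecidableEq V) (f : V → V → V) (α β : V → V → ℤ)
      (ℓ : V → V → ℕ), Sys (L.headD 0) V f α β ℓ ∧ Fintype.card V = L.prod := by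
  induction L with
  | nil => exact ⟨Unit, inferInstance, inferInstance, _, _, _, _, Sys.base, by simp⟩
  | cons p L ih =>
    rw [List.pairwise_cons] at hs
    obtain ⟨V, i1, i2, f, α, β, ℓ, S, hc⟩ := ih hs.2 (fun q hq => hL q (List.mem_cons_of_mem _ hq))
    obtain ⟨hp, hp2⟩ := hL p List.mem_cons_self
    have : NeZero p := ⟨hp.ne_zero⟩
    have hle : L.headD 0 ≤ p := by
      cases L with
      | nil => exact Nat.zero_le _
      | cons q L => exact hs.1 q List.mem_cons_self
    refine ⟨V × ZMod p, inferInstance, inferInstance, _, _, _, _, S.step hp hp2 hle, ?_⟩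
    rw [Fintype.card_prod, hc, ZMod.card, List.prod_cons, mul_comm]

theorem iterate_conj {V W : Type*} (e : V ≃ W) (f g : V → V) (k : ℕ) (u : W) :
    (fun y => (fun z => e (g (e.symm z))) ((fun z => e (f (e.symm z))) y))^[k] u =
      e ((fun y => g (f y))^[k] (e.symm u)) := by
  induction k with
  | zero => simp
  | succ k ih => rw [Function.iterate_succ_apply', ih, Function.iterate_succ_apply']; simp

/-- **Few components.** -/
theorem few_components {n : ℕ} (hn : Odd n) {p : ℕ} (hp : p.Prime) (hpn : p ∣ n) :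
    ∃ F : Fin n → Finset (Sym2 (Fin n)), IsNearFactorization n F ∧
      ∀ i j, i ≠ j →
        Nat.card (SimpleGraph.fromEdgeSet
          ((F i ∪ F j : Finset (Sym2 (Fin n))) : Set (Sym2 (Fin n)))).ConnectedComponent ≤
            (n / p + 1) / 2 := by
  classical
  have hn0 : n ≠ 0 := by rintro rfl; exact absurd hn (by decide)
  set L := n.primeFactorsList.reverse with hLdef
  have hmem : ∀ q, q ∈ L ↔ q ∈ n.primeFactorsList := fun q => List.mem_reverse
  have hLp : ∀ q ∈ L, q.Prime ∧ Odd q := by
    intro q hq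
    rw [hmem] at hq
    have h1 := Nat.prime_of_mem_primeFactorsList hq
    have h2 := Nat.dvd_of_mem_primeFactorsList hq
    exact ⟨h1, hn.of_dvd_nat h2⟩
  have hsort : L.Pairwise (fun a b => b ≤ a) := by
    rw [hLdef, List.pairwise_reverse]
    exact (Nat.primeFactorsList_sorted n).pairwise
  obtain ⟨V, i1, i2, f, α, β, ℓ, S, hc⟩ := tower L hsort hLp
  have hprod : L.prod = n := by
    rw [hLdef, List.prod_reverse, Nat.prod_primeFactorsList hn0]
  rw [hprod] at hc
  have hhead : p ≤ L.headD 0 := by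
    have h1 : p ∈ L := by
      rw [hmem]
      exact (Nat.mem_primeFactorsList hn0).mpr ⟨hp, hpn⟩
    cases hL : L with
    | nil => rw [hL] at h1; exact absurd h1 (List.not_mem_nil)
    | cons q L' =>
      rw [hL] at h1 hsort
      rcases List.mem_cons.mp h1 with rfl | h2
      · exact le_rfl
      · exact (List.pairwise_cons.mp hsort).1 p h2
  let e : V ≃ Fin n := (Fintype.equivFin V).trans (finCongr hc)
  let f' : Fin n → Fin n → Fin n := fun i x => e (f (e.symm i) (e.symm x))
  have inv' : ∀ i x, f' i (f' i x) = x := by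
    intro i x
    simp [f', S.inv]
  have inj' : ∀ x i j, f' i x = f' j x → i = j := by
    intro x i j h
    exact e.symm.injective (S.inj _ _ _ (e.injective h))
  have hz : ∀ i, ∃ z, ∀ x, f' i x = x ↔ x = z := by
    intro i
    obtain ⟨z, hz⟩ := S.fix (e.symm i)
    refine ⟨e z, fun x => ?_⟩
    show e (f (e.symm i) (e.symm x)) = x ↔ x = e z
    rw [← Equiv.eq_symm_apply, hz, Equiv.symm_apply_eq]
  choose z hz' using hz
  refine ⟨fun i => fe (f' i), near_of_system f' inv' inj' z hz', ?_⟩
  intro i j hij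
  have hij' : e.symm i ≠ e.symm j := fun h => hij (e.symm.injective h)
  have hL : ∀ u k, 0 < k → k < p → (fun y => f' j (f' i y))^[k] u ≠ u := by
    intro u k hk hkp hcon
    have h1 := iterate_conj e (f (e.symm i)) (f (e.symm j)) k u
    have h2 : (fun y => f' j (f' i y))^[k] u =
        e ((fun y => f (e.symm j) (f (e.symm i) y))^[k] (e.symm u)) := h1
    rw [hcon] at h2
    have h3 : (fun y => f (e.symm j) (f (e.symm i) y))^[k] (e.symm u) = e.symm u := by
      rw [← e.symm_apply_eq.mpr h2]
    rw [S.per _ _ hij'] at h3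
    have h4 := Nat.le_of_dvd hk h3
    have h5 := S.pos _ _ hij'
    omega
  have hadj : ∀ k, (k = i ∨ k = j) → ∀ x, f' k x ≠ x →
      (SimpleGraph.fromEdgeSet
        ((fe (f' i) ∪ fe (f' j) : Finset (Sym2 (Fin n))) : Set (Sym2 (Fin n)))).Adj x (f' k x) := by
    intro k hk x hx
    rw [SimpleGraph.fromEdgeSet_adj]
    refine ⟨?_, fun h => hx h.symm⟩
    rw [mem_coe, mem_union]
    rcases hk with rfl | rfl
    · left
      rw [mk_mem_fe (inv' k)]
      exact ⟨fun h => hx h.symm, rfl⟩
    · right
      rw [mk_mem_fe (inv' k)]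
      exact ⟨fun h => hx h.symm, rfl⟩
  have key := comp_count (inv' i) (inv' j) (hz' i) (hz' j) hL _ (hadj i (Or.inl rfl))
    (hadj j (Or.inr rfl))
  rw [Fintype.card_fin] at key
  have h6 := (Nat.le_div_iff_mul_le hp.pos).mpr key
  show Nat.card (SimpleGraph.fromEdgeSet
        ((fe (f' i) ∪ fe (f' j) : Finset (Sym2 (Fin n))) : Set (Sym2 (Fin n)))).ConnectedComponent ≤ _
  omega

end Pool.Agent.Helper23.KC
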