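import Mathlib
import Pool.Agent.Helper53.P1F.System
import Pool.Agent.Helper23.KC.Tower
import Pool.Agent.Helper23.KC.Comp
import Pool.Agent.Helper23.KC.Few

set_option autoImplicit false

/-!
# Prime coordinates
-/

namespace Pool.Agent.Helper23.KC

open Finset Pool.Agent.Helper53.P1F

/-- A tower with labels. -/
theorem label_tower (L : List ℕ) (hs : L.Pairwise (fun a b => b ≤ a))
    (hL : ∀ p ∈ L, p.Prime ∧ Odd p) :
    ∃ (V : Type) (_ : Fintype V) (_ : DecidableEq V) (f : V → V → V) (α β : V → V → ℤ)
      (ℓ : V → V → ℕ) (lab : V → ℕ → ℕ), Sys (L.headD 0) V f α β ℓ ∧ Fintype.card V = L.prod ∧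
        (∀ a j, lab a j < L.reverse.getD j 1) ∧ Function.Injective lab ∧
        ∀ a b j, lab a j ≠ lab b j → (L.reverse.drop j).prod ≤ ℓ a b := by
  induction L with
  | nil =>
    refine ⟨Unit, inferInstance, inferInstance, _, _, _, _, fun _ _ => 0, Sys.base, by simp, ?_,
      ?_, ?_⟩
    · intro a j
      simp
    · intro a b _
      rfl
    · intro a b j h
      exact absurd rfl h
  | cons p L ih =>
    rw [List.pairwise_cons] at hs
    obtain ⟨V, i1, i2, f, α, β, ℓ, lab, S, hc, hlab1, hlab2, hlab3⟩ :=
      ih hs.2 (fun q hq => hL q (List.mem_cons_of_mem _ hq))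
    obtain ⟨hp, hp2⟩ := hL p List.mem_cons_self
    have : NeZero p := ⟨hp.ne_zero⟩
    have hle : L.headD 0 ≤ p := by
      cases L with
      | nil => exact Nat.zero_le _
      | cons q L => exact hs.1 q List.mem_cons_self
    let lab' : V × ZMod p → ℕ → ℕ := fun a j =>
      if j < L.length then lab a.1 j else if j = L.length then a.2.val else 0
    have S' := S.step hp hp2 hle
    refine ⟨V × ZMod p, inferInstance, inferInstance, _, _, _, _, lab', S', ?_, ?_, ?_, ?_⟩
    · rw [Fintype.card_prod, hc, ZMod.card, List.prod_cons, mul_comm]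
    · rintro ⟨a, c⟩ j
      rw [List.reverse_cons]
      simp only [lab']
      split_ifs with h1 h2
      · rw [List.getD_append _ _ _ _ (by rwa [List.length_reverse])]
        exact hlab1 a j
      · subst h2
        rw [List.getD_append_right _ _ _ _ (by rw [List.length_reverse]), List.length_reverse,
          Nat.sub_self]
        exact ZMod.val_lt c
      · rw [List.getD_eq_default]
        · exact Nat.one_pos
        · rw [List.length_append, List.length_reverse, List.length_singleton]
          omega
    · rintro ⟨a, c⟩ ⟨b, d⟩ h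
      have h1 : a = b := by
        apply hlab2
        funext j
        by_cases hj : j < L.length
        · have := congrFun h j
          simpa only [lab', if_pos hj] using this
        · have h2 := hlab1 a j
          have h3 := hlab1 b j
          rw [List.getD_eq_default _ _ (by rw [List.length_reverse]; omega)] at h2 h3
          omega
      have h2 : c = d := by
        have := congrFun h L.length
        simp only [lab', lt_irrefl, if_false, if_true] at this
        exact ZMod.val_injective p this
      rw [h1, h2]
    · rintro ⟨a, c⟩ ⟨b, d⟩ j h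
      have hne : ((a, c) : V × ZMod p) ≠ (b, d) := fun h1 => h (by rw [h1])
      rw [List.reverse_cons]
      by_cases h1 : j < L.length
      · simp only [lab', if_pos h1] at h
        have hab : a ≠ b := fun h2 => h (by rw [h2])
        rw [List.drop_append_of_le_length (by rw [List.length_reverse]; exact h1.le),
          List.prod_append, List.prod_singleton]
        simp only [sℓ, if_neg hab]
        exact Nat.mul_le_mul_right p (hlab3 a b j h)
      · by_cases h2 : j = L.length
        · subst h2
          have h3 : (L.reverse ++ [p]).drop L.length = [p] := by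
            rw [← List.length_reverse (as := L), List.drop_left]
          rw [h3, List.prod_singleton]
          exact S'.pos _ _ hne
        · exfalso
          apply h
          simp only [lab', if_neg h1, if_neg h2]

theorem full_orb {V : Type*} [Fintype V] [DecidableEq V] {f g : V → V} {u : V}
    (hf : ∀ x, f (f x) = x) (hg : ∀ x, g (g x) = x)
    (h : ∀ i, 0 < i → i < Fintype.card V → (fun y => g (f y))^[i] u ≠ u) (x : V) :
    Orb f g u x := by
  classical
  have hinj : Function.Injective (fun y => g (f y)) := by
    intro x y hxy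
    have h1 := congrArg g hxy
    simp only [hg] at h1
    have h2 := congrArg f h1
    simpa only [hf] using h2
  have horb : ∀ k, Orb f g u ((fun y => g (f y))^[k] u) := by
    intro k
    induction k with
    | zero => exact Orb.base
    | succ k ih =>
      rw [Function.iterate_succ_apply']
      exact ih.stepf.stepg
  have hin : Set.InjOn (fun i : ℕ => (fun y => g (f y))^[i] u)
      (range (Fintype.card V) : Finset ℕ) := by
    have key : ∀ i j, i < j → j < Fintype.card V →
        (fun y => g (f y))^[i] u ≠ (fun y => g (f y))^[j] u := by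
      intro i j hij hj hcon
      have h1 : (fun y => g (f y))^[i] ((fun y => g (f y))^[j - i] u) =
          (fun y => g (f y))^[i] u := by
        rw [← Function.iterate_add_apply, Nat.add_sub_cancel' hij.le, hcon]
      exact h (j - i) (by omega) (by omega) (hinj.iterate i h1)
    intro i hi j hj hij
    rw [mem_coe, mem_range] at hi hj
    by_contra hne
    rcases lt_or_gt_of_ne hne with h1 | h1
    · exact key i j h1 hj hij
    · exact key j i h1 hi hij.symm
  have himg : (range (Fintype.card V)).image (fun i : ℕ => (fun y => g (f y))^[i] u) = univ := by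
    rw [← card_eq_iff_eq_univ, card_image_of_injOn hin, card_range]
  have hx : x ∈ (range (Fintype.card V)).image (fun i : ℕ => (fun y => g (f y))^[i] u) := by
    rw [himg]; exact mem_univ x
  rw [mem_image] at hx
  obtain ⟨k, _, rfl⟩ := hx
  exact horb k

/-- **Prime coordinates.** -/
theorem prime_coordinates {n : ℕ} (hn : Odd n) :
    ∃ F : Fin n → Finset (Sym2 (Fin n)), IsNearFactorization n F ∧
      ∃ lab : Fin n → ℕ → ℕ, (∀ i j, lab i j < n.primeFactorsList.getD j 1) ∧
        Function.Injective lab ∧
        (∀ i i', lab i 0 ≠ lab i' 0 → HamPair (F i) (F i')) ∧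
        ∀ i i' j, lab i j ≠ lab i' j →
          Nat.card (SimpleGraph.fromEdgeSet
            ((F i ∪ F i' : Finset (Sym2 (Fin n))) : Set (Sym2 (Fin n)))).ConnectedComponent ≤
              ((n.primeFactorsList.take j).prod + 1) / 2 := by
  classical
  have hn0 : n ≠ 0 := by rintro rfl; exact absurd hn (by decide)
  set L := n.primeFactorsList.reverse with hLdef
  have hrev : L.reverse = n.primeFactorsList := by rw [hLdef, List.reverse_reverse]
  have hmem : ∀ q, q ∈ L ↔ q ∈ n.primeFactorsList := fun q => List.mem_reverse
  have hLp : ∀ q ∈ L, q.Prime ∧ Odd q := by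
    intro q hq
    rw [hmem] at hq
    have h1 := Nat.prime_of_mem_primeFactorsList hq
    have h2 := Nat.dvd_of_mem_primeFactorsList hq
    exact ⟨h1, hn.of_dvd_nat h2⟩
  have hsort : L.Pairwise (fun a b => b ≤ a) := by
    rw [hLdef, List.pairwise_reverse]
    exact (Nat.primeFactorsList_sorted n).pairwise
  obtain ⟨V, i1, i2, f, α, β, ℓ, lab, S, hc, hlab1, hlab2, hlab3⟩ := label_tower L hsort hLp
  have hprod : L.prod = n := by
    rw [hLdef, List.prod_reverse, Nat.prod_primeFactorsList hn0]
  rw [hprod] at hc
  rw [hrev] at hlab1 hlab3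
  have hdropprod : ∀ j, (n.primeFactorsList.take j).prod * (n.primeFactorsList.drop j).prod = n := by
    intro j
    rw [← List.prod_append, List.take_append_drop, Nat.prod_primeFactorsList hn0]
  let e : V ≃ Fin n := (Fintype.equivFin V).trans (finCongr hc)
  let f' : Fin n → Fin n → Fin n := fun i x => e (f (e.symm i) (e.symm x))
  have inv' : ∀ i x, f' i (f' i x) = x := by
    intro i x
    simp [f', S.inv]
  have inj' : ∀ x i j, f' i x = f' j x → i = j := by
    intro x i j h
    exact e.symm.injective (S.inj _ _ _ (e.injective h))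
  have hz : ∀ i, ∃ z, ∀ x, f' i x = x ↔ x = z := by
    intro i
    obtain ⟨z, hz⟩ := S.fix (e.symm i)
    refine ⟨e z, fun x => ?_⟩
    show e (f (e.symm i) (e.symm x)) = x ↔ x = e z
    rw [← Equiv.eq_symm_apply, hz, Equiv.symm_apply_eq]
  choose z hz' using hz
  have hper : ∀ i j D, i ≠ j → D ≤ ℓ (e.symm i) (e.symm j) → ∀ u k, 0 < k → k < D →
      (fun y => f' j (f' i y))^[k] u ≠ u := by
    intro i j D hij hD u k hk hkD hcon
    have hij' : e.symm i ≠ e.symm j := fun h => hij (e.symm.injective h)
    have h1 := iterate_conj e (f (e.symm i)) (f (e.symm j)) k u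
    have h2 : (fun y => f' j (f' i y))^[k] u =
        e ((fun y => f (e.symm j) (f (e.symm i) y))^[k] (e.symm u)) := h1
    rw [hcon] at h2
    have h3 : (fun y => f (e.symm j) (f (e.symm i) y))^[k] (e.symm u) = e.symm u := by
      rw [← e.symm_apply_eq.mpr h2]
    rw [S.per _ _ hij'] at h3
    have h4 := Nat.le_of_dvd hk h3
    omega
  have hadj : ∀ i j k, (k = i ∨ k = j) → ∀ x, f' k x ≠ x →
      (SimpleGraph.fromEdgeSet
        ((fe (f' i) ∪ fe (f' j) : Finset (Sym2 (Fin n))) : Set (Sym2 (Fin n)))).Adj x (f' k x) := by
    intro i j k hk x hx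
    rw [SimpleGraph.fromEdgeSet_adj]
    refine ⟨?_, fun h => hx h.symm⟩
    rw [mem_coe, mem_union]
    rcases hk with rfl | rfl
    · left
      rw [mk_mem_fe (inv' k)]
      exact ⟨fun h => hx h.symm, rfl⟩
    · right
      rw [mk_mem_fe (inv' k)]
      exact ⟨fun h => hx h.symm, rfl⟩
  refine ⟨fun i => fe (f' i), near_of_system f' inv' inj' z hz', fun i => lab (e.symm i),
    fun i j => hlab1 _ j, fun i j h => e.symm.injective (hlab2 h), ?_, ?_⟩
  · intro i i' h
    have hne : i ≠ i' := fun h1 => h (by rw [h1])
    have h1 := hlab3 _ _ 0 h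
    rw [List.drop_zero, Nat.prod_primeFactorsList hn0] at h1
    have h2 : ∀ x, Orb (f' i) (f' i') (z i) x := by
      intro x
      apply full_orb (inv' i) (inv' i')
      rw [Fintype.card_fin]
      exact fun k hk hkn => hper i i' n hne h1 _ k hk hkn
    exact exists_ham (inv' i) (inv' i') (hz' i) (hz' i') h2
  · intro i i' j h
    have hne : i ≠ i' := fun h1 => h (by rw [h1])
    have h1 := hlab3 _ _ j h
    have key := comp_count (inv' i) (inv' i') (hz' i) (hz' i')
      (hper i i' _ hne h1) _ (hadj i i' i (Or.inl rfl)) (hadj i i' i' (Or.inr rfl))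
    rw [Fintype.card_fin] at key
    have h5 : 0 < (n.primeFactorsList.drop j).prod := by
      rcases Nat.eq_zero_or_pos (n.primeFactorsList.drop j).prod with h0 | h0
      · exfalso
        have := hdropprod j
        rw [h0, mul_zero] at this
        exact hn0 this.symm
      · exact h0
    have h6 : 2 * Nat.card (SimpleGraph.fromEdgeSet
        ((fe (f' i) ∪ fe (f' i') : Finset (Sym2 (Fin n))) : Set (Sym2 (Fin n)))).ConnectedComponent
          - 1 ≤ (n.primeFactorsList.take j).prod := by
      have h7 := hdropprod j
      exact Nat.le_of_mul_le_mul_right (key.trans h7.ge) h5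
    show Nat.card (SimpleGraph.fromEdgeSet
        ((fe (f' i) ∪ fe (f' i') : Finset (Sym2 (Fin n))) : Set (Sym2 (Fin n)))).ConnectedComponent ≤ _
    omega

end Pool.Agent.Helper23.KC
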