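import Mathlib
import Pool.Agent.Helper53.P1F.System
import Pool.Agent.Helper23.KC.Skew

set_option autoImplicit false

/-!
# Deleting a vertex from a system of fixed point free involutions
-/

namespace Pool.Agent.Helper23.KC

open Finset Pool.Agent.Helper53.P1F

theorem Orb.map' {X Y : Type*} {f g : X → X} {f' g' : Y → Y} (φ : X → Y)
    (hf : ∀ x, φ (f x) = φ x ∨ φ (f x) = f' (φ x)) (hg : ∀ x, φ (g x) = φ x ∨ φ (g x) = g' (φ x))
    {b x : X} (h : Orb f g b x) : Orb f' g' (φ b) (φ x) := by
  induction h with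
  | base => exact Orb.base
  | @stepf y _ ih =>
    rcases hf y with h | h
    · rw [h]; exact ih
    · rw [h]; exact ih.stepf
  | @stepg y _ ih =>
    rcases hg y with h | h
    · rw [h]; exact ih
    · rw [h]; exact ih.stepg

variable {W : Type*} [Fintype W] [DecidableEq W]

/-- The involution on the vertices different from `v0`. -/
def punc (v0 : W) (f : W → W) (_hf : ∀ x, f (f x) = x) (v : {x : W // x ≠ v0}) : {x : W // x ≠ v0} :=
  if h : f v.1 = v0 then v else ⟨f v.1, h⟩

theorem punc_orb {f g : W → W} (hf : ∀ x, f (f x) = x) (hg : ∀ x, g (g x) = x)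
    (hf' : ∀ x, f x ≠ x) (hg' : ∀ x, g x ≠ x) {b : W} (hb : ∀ x, Orb f g b x) (v0 : W)
    (x : {x : W // x ≠ v0}) :
    Orb (punc v0 f hf) (punc v0 g hg) ⟨f v0, hf' v0⟩ x := by
  classical
  let f1 := punc v0 f hf
  let g1 := punc v0 g hg
  let b1 : {x : W // x ≠ v0} := ⟨f v0, hf' v0⟩
  -- the orbit as a finite set of vertices
  let K : Finset W := univ.filter (fun w => ∃ h : w ≠ v0, Orb f1 g1 b1 ⟨w, h⟩)
  have hK : ∀ w, w ∈ K ↔ ∃ h : w ≠ v0, Orb f1 g1 b1 ⟨w, h⟩ := by
    intro w
    simp only [K, mem_filter, mem_univ, true_and]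
  have hKf : ∀ w ∈ K, f w ≠ v0 → f w ∈ K := by
    intro w hw hne
    obtain ⟨h, ho⟩ := (hK w).mp hw
    refine (hK _).mpr ⟨hne, ?_⟩
    have := ho.stepf
    have he : f1 ⟨w, h⟩ = ⟨f w, hne⟩ := by
      simp only [f1, punc, dif_neg hne]
    rw [he] at this
    exact this
  have hKg : ∀ w ∈ K, g w ≠ v0 → g w ∈ K := by
    intro w hw hne
    obtain ⟨h, ho⟩ := (hK w).mp hw
    refine (hK _).mpr ⟨hne, ?_⟩
    have := ho.stepg
    have he : g1 ⟨w, h⟩ = ⟨g w, hne⟩ := by
      simp only [g1, punc, dif_neg hne]
    rw [he] at this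
    exact this
  have hv0 : v0 ∉ K := by
    intro h
    obtain ⟨h, _⟩ := (hK v0).mp h
    exact h rfl
  have hfv : f v0 ∈ K := (hK _).mpr ⟨hf' v0, Orb.base⟩
  -- parity
  have hodd : ∀ (k : W → W) (hk : ∀ x, k (k x) = x) (hk' : ∀ x, k x ≠ x)
      (hcl : ∀ w ∈ K, k w ≠ v0 → k w ∈ K), ∃ t, K.card = 2 * t + if k v0 ∈ K then 1 else 0 := by
    intro k hk hk' hcl
    let φ : W → W := fun w => if w ∈ K ∧ k w ≠ v0 then k w else w
    have hφ : ∀ w, φ (φ w) = w := by
      intro w
      by_cases h : w ∈ K ∧ k w ≠ v0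
      · have h1 : φ w = k w := by simp only [φ, if_pos h]
        have h2 : k w ∈ K ∧ k (k w) ≠ v0 := by
          refine ⟨hcl w h.1 h.2, ?_⟩
          rw [hk]
          rintro rfl
          exact hv0 h.1
        rw [h1]
        simp only [φ, if_pos h2, hk]
      · have h1 : φ w = w := by simp only [φ, if_neg h]
        rw [h1, h1]
    refine ⟨(fe φ).card, ?_⟩
    rw [card_fe hφ]
    have hset : univ.filter (fun w => φ w ≠ w) = K.erase (k v0) := by
      ext w
      simp only [mem_filter, mem_univ, true_and, mem_erase]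
      constructor
      · intro h
        by_cases h1 : w ∈ K ∧ k w ≠ v0
        · refine ⟨?_, h1.1⟩
          rintro rfl
          exact h1.2 (hk v0)
        · exfalso
          exact h (by simp only [φ, if_neg h1])
      · rintro ⟨h1, h2⟩
        have h3 : k w ≠ v0 := by
          intro h4
          apply h1
          rw [← h4, hk]
        have h5 : φ w = k w := by simp only [φ, if_pos (And.intro h2 h3)]
        rw [h5]
        exact hk' w
    rw [hset]
    split_ifs with h
    · rw [card_erase_of_mem h]
      have := card_pos.mpr ⟨_, h⟩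
      omega
    · rw [erase_eq_of_notMem h]
      omega
  have hgv : g v0 ∈ K := by
    by_contra hcon
    obtain ⟨t1, h1⟩ := hodd f hf hf' hKf
    obtain ⟨t2, h2⟩ := hodd g hg hg' hKg
    rw [if_pos hfv] at h1
    rw [if_neg hcon] at h2
    omega
  let S : Set W := {w | w ∈ K ∨ w = v0}
  have hSf : ∀ w ∈ S, f w ∈ S := by
    rintro w (hw | rfl)
    · by_cases h : f w = v0
      · exact Or.inr h
      · exact Or.inl (hKf w hw h)
    · exact Or.inl hfv
  have hSg : ∀ w ∈ S, g w ∈ S := by
    rintro w (hw | rfl)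
    · by_cases h : g w = v0
      · exact Or.inr h
      · exact Or.inl (hKg w hw h)
    · exact Or.inl hgv
  have hbS : b ∈ S := Orb.back hf hg S hSf hSg (hb v0) (Or.inr rfl)
  have hxS : x.1 ∈ S := Orb.mem_of_closed S hSf hSg hbS (hb x.1)
  rcases hxS with h | h
  · obtain ⟨_, ho⟩ := (hK x.1).mp h
    exact ho
  · exact absurd h x.2

/-- Near-factorizations with separate types of indices and vertices. -/
theorem exists_near2 {I V : Type*} [Fintype I] [Fintype V] [DecidableEq V] {n : ℕ}
    (hI : Fintype.card I = n) (hV : Fintype.card V = n) (f : I → V → V)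
    (inv : ∀ i x, f i (f i x) = x) (inj : ∀ x i j, f i x = f j x → i = j)
    (a : I → V) (fix : ∀ i x, f i x = x ↔ x = a i) :
    ∃ F : Fin n → Finset (Sym2 (Fin n)), IsNearFactorization n F ∧
      ∃ e : I ≃ Fin n, ∀ i j : I, (∃ b, ∀ x, Orb (f i) (f j) b x) →
        HamPair (F (e i)) (F (e j)) := by
  let e : I ≃ Fin n := (Fintype.equivFin I).trans (finCongr hI)
  let ε : V ≃ Fin n := (Fintype.equivFin V).trans (finCongr hV)
  let f' : Fin n → Fin n → Fin n := fun i x => ε (f (e.symm i) (ε.symm x))
  have inv' : ∀ i x, f' i (f' i x) = x := by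
    intro i x
    simp [f', inv]
  have inj' : ∀ x i j, f' i x = f' j x → i = j := by
    intro x i j h
    have h1 := ε.injective h
    exact e.symm.injective (inj _ _ _ h1)
  have fix' : ∀ i x, f' i x = x ↔ x = (fun i => ε (a (e.symm i))) i := by
    intro i x
    show ε (f (e.symm i) (ε.symm x)) = x ↔ x = ε (a (e.symm i))
    rw [← Equiv.eq_symm_apply, fix, Equiv.symm_apply_eq]
  refine ⟨fun i => fe (f' i), near_of_system f' inv' inj' _ fix', e, ?_⟩
  rintro i j ⟨b, hb⟩
  have hb' : ∀ x, Orb (f' (e i)) (f' (e j)) (ε b) x := by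
    intro x
    have := (hb (ε.symm x)).transport ε
    rw [Equiv.apply_symm_apply] at this
    have h1 : (fun y => ε (f i (ε.symm y))) = f' (e i) := by
      funext y; simp [f']
    have h2 : (fun y => ε (f j (ε.symm y))) = f' (e j) := by
      funext y; simp [f']
    rw [h1, h2] at this
    exact this
  exact exists_ham (inv' _) (inv' _) (fix' _) (fix' _) hb'

/-- A system of fixed point free involutions on `n + 1` vertices gives a near-factorization. -/
theorem exists_near_punc {I W : Type*} [Fintype I] [Fintype W] [DecidableEq W] {n : ℕ}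
    (hI : Fintype.card I = n) (hW : Fintype.card W = n + 1) (f : I → W → W)
    (inv : ∀ i x, f i (f i x) = x) (inj : ∀ x i j, f i x = f j x → i = j)
    (nofix : ∀ i x, f i x ≠ x) (v0 : W) :
    ∃ F : Fin n → Finset (Sym2 (Fin n)), IsNearFactorization n F ∧
      ∃ e : I ≃ Fin n, ∀ i j : I, (∃ b, ∀ x, Orb (f i) (f j) b x) →
        HamPair (F (e i)) (F (e j)) := by
  classical
  have hV : Fintype.card {x : W // x ≠ v0} = n := by
    have h1 := Fintype.card_subtype_compl (fun x : W => x = v0)
    rw [hW, Fintype.card_subtype_eq] at h1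
    simpa using h1
  obtain ⟨F, hF, e, he⟩ := exists_near2 (I := I) (V := {x : W // x ≠ v0}) hI hV
    (fun i => punc v0 (f i) (inv i))
    (by
      intro i v
      by_cases h : f i v.1 = v0
      · have h1 : punc v0 (f i) (inv i) v = v := by simp only [punc, dif_pos h]
        rw [h1, h1]
      · have h1 : punc v0 (f i) (inv i) v = ⟨f i v.1, h⟩ := by simp only [punc, dif_neg h]
        rw [h1]
        have h2 : f i (f i v.1) ≠ v0 := by rw [inv]; exact v.2
        have h3 : punc v0 (f i) (inv i) ⟨f i v.1, h⟩ = ⟨f i (f i v.1), h2⟩ := by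
          simp only [punc, dif_neg h2]
        rw [h3]
        exact Subtype.ext (inv i v.1))
    (by
      intro v i j hij
      have hij' : punc v0 (f i) (inv i) v = punc v0 (f j) (inv j) v := hij
      by_cases hi : f i v.1 = v0 <;> by_cases hj : f j v.1 = v0
      · exact inj v.1 i j (hi.trans hj.symm)
      · exfalso
        simp only [punc, dif_pos hi, dif_neg hj] at hij'
        exact nofix j v.1 (congrArg Subtype.val hij').symm
      · exfalso
        simp only [punc, dif_neg hi, dif_pos hj] at hij'
        exact nofix i v.1 (congrArg Subtype.val hij')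
      · simp only [punc, dif_neg hi, dif_neg hj] at hij'
        exact inj v.1 i j (congrArg Subtype.val hij'))
    (fun i => ⟨f i v0, nofix i v0⟩)
    (by
      intro i v
      show punc v0 (f i) (inv i) v = v ↔ v = ⟨f i v0, nofix i v0⟩
      by_cases h : f i v.1 = v0
      · have h1 : punc v0 (f i) (inv i) v = v := by simp only [punc, dif_pos h]
        simp only [h1, true_iff]
        apply Subtype.ext
        show v.1 = f i v0
        have h2 := inv i v.1
        rw [h] at h2
        exact h2.symm
      · have h1 : punc v0 (f i) (inv i) v = ⟨f i v.1, h⟩ := by simp only [punc, dif_neg h]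
        rw [h1]
        constructor
        · intro h2
          exact absurd (congrArg Subtype.val h2) (nofix i v.1)
        · intro h2
          exfalso
          apply h
          rw [h2]
          exact inv i v0)
  refine ⟨F, hF, e, ?_⟩
  rintro i j ⟨b, hb⟩
  exact he i j ⟨⟨f i v0, nofix i v0⟩, fun x =>
    punc_orb (inv i) (inv j) (nofix i) (nofix j) hb v0 x⟩

end Pool.Agent.Helper23.KC
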