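import Mathlib
import Pool.Agent.Helper53.P1F.System
import Pool.Agent.Helper23.KC.Skew
import Pool.Agent.Helper23.KC.Product
import Pool.Agent.Helper23.KC.Punct

set_option autoImplicit false

/-!
# The second family: complete graphs on `2 m` vertices, `m` odd
-/

namespace Pool.Agent.Helper23.KC

open Finset Pool.Agent.Helper53.P1F

/-- Vertices. -/
abbrev Vt (R P : ℕ) : Type := (ZMod R × Bool) × ZMod P

/-- weights -/
def om (R P : ℕ) (t : ZMod R) (s c : ZMod P) : ZMod P :=
  if t = 0 then s - ((R : ZMod P) - 1) * c else c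

theorem om_neg {R P : ℕ} (t : ZMod R) (s c : ZMod P) : om R P (-t) s c = om R P t s c := by
  simp only [om, neg_eq_zero]

theorem om_sum {R P : ℕ} [NeZero R] (s c : ZMod P) : ∑ t : ZMod R, om R P t s c = s := by
  have h1 : ∀ t : ZMod R, om R P t s c = (if t = 0 then s - (R : ZMod P) * c else 0) + c := by
    intro t
    simp only [om]
    split_ifs <;> ring
  simp only [h1, sum_add_distrib, sum_const, card_univ, ZMod.card, nsmul_eq_mul]
  rw [sum_ite_eq' univ (0 : ZMod R) (fun _ => s - (R : ZMod P) * c), if_pos (mem_univ _)]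
  ring

/-- reflection weights on both copies -/
def wA (R P : ℕ) (a : ZMod R) (s c : ZMod P) (u : ZMod R × Bool) : ZMod P :=
  if u.2 = true then -om R P (u.1 - a) s c else om R P (u.1 - a) s c

/-- reflection of the base -/
def r0 {R : ℕ} (a : ZMod R) (u : ZMod R × Bool) : ZMod R × Bool := (2 * a - u.1, u.2)

/-- crossing of the base -/
def c0 {R : ℕ} (i : ZMod R) (u : ZMod R × Bool) : ZMod R × Bool :=
  if u.2 = true then (u.1 - i, false) else (u.1 + i, true)

/-- crossing weights -/
def wB (R P : ℕ) (i : ZMod R) (s j : ZMod P) (u : ZMod R × Bool) : ZMod P :=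
  if u.2 = true then -om R P (u.1 - i) s j else -om R P u.1 s j

theorem r0_inv {R : ℕ} (a : ZMod R) (u : ZMod R × Bool) : r0 a (r0 a u) = u := by
  simp [r0]

theorem c0_inv {R : ℕ} (i : ZMod R) (u : ZMod R × Bool) : c0 i (c0 i u) = u := by
  obtain ⟨u, e⟩ := u
  cases e <;> simp [c0]

theorem wA_inv {R P : ℕ} (a : ZMod R) (s c : ZMod P) (u : ZMod R × Bool) :
    wA R P a s c (r0 a u) = wA R P a s c u := by
  have h : (2 * a - u.1) - a = -(u.1 - a) := by ring
  simp only [wA, r0, h, om_neg]

theorem wB_inv {R P : ℕ} (i : ZMod R) (s j : ZMod P) (u : ZMod R × Bool) :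
    wB R P i s j (c0 i u) = wB R P i s j u := by
  obtain ⟨u, e⟩ := u
  cases e <;> simp [wB, c0]

/-- involutions of the first kind -/
def Ff (R P : ℕ) (a : ZMod R) (s c : ZMod P) (v : Vt R P) : Vt R P :=
  if v.1.1 = a ∧ 2 * v.2 = wA R P a s c v.1 then ((v.1.1, !v.1.2), -v.2)
  else (r0 a v.1, wA R P a s c v.1 - v.2)

/-- involutions of the second kind -/
def Cf (R P : ℕ) (i : ZMod R) (s j : ZMod P) (v : Vt R P) : Vt R P :=
  (c0 i v.1, wB R P i s j v.1 - v.2)

section

variable {R P : ℕ}

theorem Cf_inv (i : ZMod R) (s j : ZMod P) (v : Vt R P) : Cf R P i s j (Cf R P i s j v) = v := by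
  simp only [Cf, c0_inv, wB_inv]
  ext
  · rfl
  · rfl
  · simp

theorem c0_snd (i : ZMod R) (u : ZMod R × Bool) : (c0 i u).2 = !u.2 := by
  obtain ⟨u, e⟩ := u
  cases e <;> simp [c0]

theorem Cf_ne (i : ZMod R) (s j : ZMod P) (v : Vt R P) : Cf R P i s j v ≠ v := by
  intro h
  have h1 := congrArg (fun w : Vt R P => w.1.2) h
  simp only [Cf, c0_snd] at h1
  cases hv : v.1.2 <;> simp [hv] at h1

theorem Ff_inv (a : ZMod R) (s c : ZMod P) (v : Vt R P) : Ff R P a s c (Ff R P a s c v) = v := by
  obtain ⟨⟨u, e⟩, x⟩ := v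
  by_cases h : u = a ∧ 2 * x = wA R P a s c (u, e)
  · have h1 : Ff R P a s c ((u, e), x) = ((u, !e), -x) := by simp only [Ff, if_pos h]
    have h2 : u = a ∧ 2 * (-x) = wA R P a s c (u, !e) := by
      refine ⟨h.1, ?_⟩
      rw [mul_neg, h.2]
      cases e <;> simp [wA]
    rw [h1]
    simp only [Ff, if_pos h2, Bool.not_not, neg_neg]
  · have h1 : Ff R P a s c ((u, e), x) = (r0 a (u, e), wA R P a s c (u, e) - x) := by
      simp only [Ff, if_neg h]
    have h2 : ¬ ((r0 a (u, e)).1 = a ∧
        2 * (wA R P a s c (u, e) - x) = wA R P a s c (r0 a (u, e))) := by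
      rintro ⟨h3, h4⟩
      rw [wA_inv] at h4
      apply h
      refine ⟨?_, by linear_combination -h4⟩
      simp only [r0] at h3
      linear_combination -h3
    have h5 : Ff R P a s c (r0 a (u, e), wA R P a s c (u, e) - x) =
        (r0 a (r0 a (u, e)), wA R P a s c (r0 a (u, e)) - (wA R P a s c (u, e) - x)) := by
      unfold Ff
      exact if_neg h2
    rw [h1, h5, r0_inv, wA_inv, sub_sub_cancel]

theorem two_cancel (hR : Odd R) {x y : ZMod R} (h : 2 * x = 2 * y) : x = y :=
  (isUnit_two hR).mul_left_cancel h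

theorem Ff_ne (hR : Odd R) (a : ZMod R) (s c : ZMod P) (v : Vt R P) :
    Ff R P a s c v ≠ v := by
  obtain ⟨⟨u, e⟩, x⟩ := v
  intro h
  by_cases h0 : u = a ∧ 2 * x = wA R P a s c (u, e)
  · have h1 : Ff R P a s c ((u, e), x) = ((u, !e), -x) := by simp only [Ff, if_pos h0]
    rw [h1] at h
    have h2 := congrArg (fun w : Vt R P => w.1.2) h
    cases e <;> simp at h2
  · have h1 : Ff R P a s c ((u, e), x) = (r0 a (u, e), wA R P a s c (u, e) - x) := by
      simp only [Ff, if_neg h0]
    rw [h1] at h
    have h2 := congrArg (fun w : Vt R P => w.1.1) h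
    have h3 := congrArg (fun w : Vt R P => w.2) h
    simp only [r0] at h2 h3
    apply h0
    refine ⟨two_cancel hR (by linear_combination -h2), by linear_combination -h3⟩

/-- All involutions. -/
def gf (R P : ℕ) (i : Bool × ZMod R × ZMod P) : Vt R P → Vt R P :=
  if i.1 = true then Cf R P i.2.1 (i.2.1.val : ZMod P) i.2.2
  else Ff R P i.2.1 (i.2.1.val : ZMod P) i.2.2

theorem gf_inv (i : Bool × ZMod R × ZMod P) (v : Vt R P) : gf R P i (gf R P i v) = v := by
  obtain ⟨e, a, c⟩ := i
  cases e
  · exact Ff_inv _ _ _ _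
  · exact Cf_inv _ _ _ _

theorem gf_ne (hR : Odd R) (i : Bool × ZMod R × ZMod P) (v : Vt R P) :
    gf R P i v ≠ v := by
  obtain ⟨e, a, c⟩ := i
  cases e
  · exact Ff_ne hR _ _ _ _
  · exact Cf_ne _ _ _ _

theorem om_inj (hu : IsUnit ((R : ZMod P) - 1)) (t : ZMod R) (s : ZMod P) {c d : ZMod P}
    (h : om R P t s c = om R P t s d) : c = d := by
  simp only [om] at h
  split_ifs at h
  · exact hu.mul_left_cancel (by linear_combination -h)
  · exact h

theorem gf_inj [NeZero R] (hR : Odd R) (hP : Odd P) (hu : IsUnit ((R : ZMod P) - 1)) (v : Vt R P)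
    (i j : Bool × ZMod R × ZMod P) (hi : i ≠ (true, 0, 0)) (hj : j ≠ (true, 0, 0))
    (h : gf R P i v = gf R P j v) : i = j := by
  obtain ⟨⟨u, e⟩, x⟩ := v
  have FF : ∀ (a b : ZMod R) (c d : ZMod P),
      Ff R P a (a.val : ZMod P) c ((u, e), x) = Ff R P b (b.val : ZMod P) d ((u, e), x) →
        a = b ∧ c = d := by
    intro a b c d h
    have wAinj : ∀ {a : ZMod R} {c d : ZMod P},
        wA R P a (a.val : ZMod P) c (u, e) = wA R P a (a.val : ZMod P) d (u, e) → c = d := by
      intro a c d h
      cases e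
      · simp only [wA] at h
        exact om_inj hu _ _ h
      · simp only [wA, if_true] at h
        exact om_inj hu _ _ (neg_injective h)
    by_cases h1 : u = a ∧ 2 * x = wA R P a (a.val : ZMod P) c (u, e) <;>
      by_cases h2 : u = b ∧ 2 * x = wA R P b (b.val : ZMod P) d (u, e)
    · have hab : a = b := h1.1.symm.trans h2.1
      subst hab
      exact ⟨rfl, wAinj (h1.2.symm.trans h2.2)⟩
    · exfalso
      simp only [Ff, if_pos h1, if_neg h2] at h
      have h3 := congrArg (fun w : Vt R P => w.1.2) h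
      cases e <;> simp [r0] at h3
    · exfalso
      simp only [Ff, if_neg h1, if_pos h2] at h
      have h3 := congrArg (fun w : Vt R P => w.1.2) h
      cases e <;> simp [r0] at h3
    · simp only [Ff, if_neg h1, if_neg h2] at h
      have h3 := congrArg (fun w : Vt R P => w.1.1) h
      have h4 := congrArg (fun w : Vt R P => w.2) h
      simp only [r0] at h3 h4
      have hab : a = b := two_cancel hR (by linear_combination h3)
      subst hab
      exact ⟨rfl, wAinj (by linear_combination h4)⟩
  have FC : ∀ (a i : ZMod R) (c j : ZMod P), (i, j) ≠ (0, 0) →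
      Ff R P a (a.val : ZMod P) c ((u, e), x) ≠ Cf R P i (i.val : ZMod P) j ((u, e), x) := by
    intro a i c j hij h
    by_cases h1 : u = a ∧ 2 * x = wA R P a (a.val : ZMod P) c (u, e)
    · simp only [Ff, if_pos h1, Cf] at h
      have h2 := congrArg (fun w : Vt R P => w.1.1) h
      have h3 := congrArg (fun w : Vt R P => w.2) h
      have hi0 : i = 0 := by
        cases e
        · simp only [c0] at h2
          simpa using h2
        · simp only [c0, if_true] at h2
          linear_combination h2
      subst hi0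
      apply hij
      have hj0 : om R P u ((0 : ZMod R).val : ZMod P) j = om R P u ((0 : ZMod R).val : ZMod P) 0 := by
        have h4 : om R P u ((0 : ZMod R).val : ZMod P) 0 = 0 := by simp [om]
        rw [h4]
        cases e
        · simp only [wB] at h3
          simp only [Bool.false_eq_true, if_false] at h3
          linear_combination h3
        · simp only [wB, if_true, sub_zero] at h3
          linear_combination h3
      rw [om_inj hu _ _ hj0]
    · simp only [Ff, if_neg h1, Cf] at h
      have h3 := congrArg (fun w : Vt R P => w.1.2) h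
      simp only [r0, c0_snd] at h3
      cases e <;> simp at h3
  have CC : ∀ (i i' : ZMod R) (j j' : ZMod P),
      Cf R P i (i.val : ZMod P) j ((u, e), x) = Cf R P i' (i'.val : ZMod P) j' ((u, e), x) →
        i = i' ∧ j = j' := by
    intro i i' j j' h
    simp only [Cf] at h
    have h2 := congrArg (fun w : Vt R P => w.1.1) h
    have h3 := congrArg (fun w : Vt R P => w.2) h
    have hii : i = i' := by
      cases e
      · simp only [c0] at h2
        simpa using h2
      · simp only [c0, if_true] at h2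
        simpa using h2
    subst hii
    refine ⟨rfl, ?_⟩
    cases e
    · simp only [wB, Bool.false_eq_true, if_false] at h3
      exact om_inj hu _ _ (by linear_combination -h3)
    · simp only [wB, if_true] at h3
      exact om_inj hu _ _ (by linear_combination -h3)
  obtain ⟨k, a, c⟩ := i
  obtain ⟨l, b, d⟩ := j
  cases k <;> cases l
  · obtain ⟨h1, h2⟩ := FF a b c d h
    rw [h1, h2]
  · exfalso
    refine FC a b c d ?_ h
    rintro hbd
    apply hj
    rw [Prod.mk.injEq] at hbd
    rw [hbd.1, hbd.2]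
  · exfalso
    refine FC b a d c ?_ h.symm
    rintro hbd
    apply hi
    rw [Prod.mk.injEq] at hbd
    rw [hbd.1, hbd.2]
  · obtain ⟨h1, h2⟩ := CC a b c d h
    rw [h1, h2]

end

end Pool.Agent.Helper23.KC
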