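import Mathlib
import Pool.Agent.Helper53.P1F.System
import Pool.Agent.Helper23.KC.Skew
import Pool.Agent.Helper23.KC.Product
import Pool.Agent.Helper23.KC.Punct
import Pool.Agent.Helper23.KC.GA

set_option autoImplicit false

/-!
# The second family: Hamiltonian pairs
-/

namespace Pool.Agent.Helper23.KC

open Finset Pool.Agent.Helper53.P1F

theorem skew_reach {V : Type*} [Fintype V] [DecidableEq V] {P : ℕ} [NeZero P] {h : V → V}
    (hinj : Function.Injective h) {a : V} (ht : ∀ x, ∃ k : ℕ, h^[k] a = x) (d : V → ZMod P)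
    (hu : IsUnit (∑ v, d v)) (w : V × ZMod P) :
    ∃ k : ℕ, (fun w : V × ZMod P => (h w.1, w.2 + d w.1))^[k] (a, 0) = w := by
  classical
  obtain ⟨hm, hsum⟩ := iterate_card hinj ht
  set H : V × ZMod P → V × ZMod P := fun w => (h w.1, w.2 + d w.1) with hH
  set D := ∑ v, d v with hDdef
  set m := Fintype.card V with hmdef
  have hper : ∀ x, H^[m] (a, x) = (a, x + D) := by
    intro x
    rw [hH, iterate_skew, hm, hsum]
  have hpert : ∀ t : ℕ, H^[m * t] (a, 0) = (a, (t : ZMod P) * D) := by
    intro t
    induction t with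
    | zero => simp
    | succ t ih =>
      rw [Nat.mul_succ, Nat.add_comm, Function.iterate_add_apply, ih, hper]
      push_cast
      ext
      · rfl
      · simp only
        ring
  obtain ⟨v, y⟩ := w
  obtain ⟨k, hk⟩ := ht v
  obtain ⟨D', hD'⟩ := hu
  set z : ZMod P := (y - ∑ i ∈ range k, d (h^[i] a)) * (D'⁻¹ : (ZMod P)ˣ) with hz
  refine ⟨k + m * z.val, ?_⟩
  rw [Function.iterate_add_apply, hpert, ZMod.natCast_zmod_val, hH, iterate_skew, hk]
  ext
  · rfl
  · simp only [hz]
    rw [← hD', mul_assoc, Units.inv_mul, mul_one]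
    ring

theorem add_iterate {R : ℕ} (δ : ZMod R) (k : ℕ) (a : ZMod R) :
    (fun u => u + δ)^[k] a = a + (k : ZMod R) * δ := by
  induction k with
  | zero => simp
  | succ k ih =>
    rw [Function.iterate_succ_apply', ih]
    push_cast
    ring

theorem exists_mul {R : ℕ} [Fact R.Prime] {δ : ZMod R} (hδ : δ ≠ 0) (y : ZMod R) :
    ∃ k : ℕ, (k : ZMod R) * δ = y := by
  have : NeZero R := ⟨(Fact.out : R.Prime).ne_zero⟩
  refine ⟨(y * δ⁻¹).val, ?_⟩
  rw [ZMod.natCast_zmod_val, mul_assoc, inv_mul_cancel₀ hδ, mul_one]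

section

variable {R P : ℕ} [Fact R.Prime] [NeZero P]

theorem orb_CC {i i' : ZMod R} (s s' j j' : ZMod P) (hii : i ≠ i') (hs : IsUnit (s - s'))
    (w : Vt R P) : Orb (Cf R P i s j) (Cf R P i' s' j') ((0, false), 0) w := by
  have : NeZero R := ⟨(Fact.out : R.Prime).ne_zero⟩
  set h : ZMod R → ZMod R := fun u => u + (i - i') with hh
  set d : ZMod R → ZMod P := fun u => om R P u s j - om R P (u + (i - i')) s' j' with hd
  have hinj : Function.Injective h := fun x y hxy => add_right_cancel hxy
  have ht : ∀ x, ∃ k : ℕ, h^[k] 0 = x := by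
    intro x
    obtain ⟨k, hk⟩ := exists_mul (sub_ne_zero.mpr hii) x
    refine ⟨k, ?_⟩
    rw [hh, add_iterate, hk, zero_add]
  have hD : ∑ v, d v = s - s' := by
    simp only [hd, sum_sub_distrib]
    rw [om_sum]
    congr 1
    exact (Fintype.sum_equiv (Equiv.addRight (i - i')) _ (fun t => om R P t s' j')
      (fun _ => rfl)).trans (om_sum s' j')
  have hstep : ∀ (u : ZMod R) (x : ZMod P),
      Cf R P i' s' j' (Cf R P i s j ((u, false), x)) = ((h u, false), x + d u) := by
    intro u x
    simp only [Cf, c0, wB, hh, hd, if_true, Bool.false_eq_true, if_false]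
    have h1 : u + i - i' = u + (i - i') := by ring
    rw [h1]
    ext
    · rfl
    · rfl
    · simp only
      ring
  have hfalse : ∀ (v : ZMod R) (y : ZMod P),
      Orb (Cf R P i s j) (Cf R P i' s' j') ((0, false), 0) ((v, false), y) := by
    intro v y
    obtain ⟨k, hk⟩ := skew_reach hinj ht d (by rw [hD]; exact hs) (v, y)
    have key : ∀ k : ℕ, Orb (Cf R P i s j) (Cf R P i' s' j') ((0, false), 0)
        ((((fun w : ZMod R × ZMod P => (h w.1, w.2 + d w.1))^[k] (0, 0)).1, false),
          ((fun w : ZMod R × ZMod P => (h w.1, w.2 + d w.1))^[k] (0, 0)).2) := by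
      intro k
      induction k with
      | zero => exact Orb.base
      | succ k ih =>
        rw [Function.iterate_succ_apply']
        have := ih.stepf.stepg
        rw [hstep] at this
        exact this
    have := key k
    rw [hk] at this
    exact this
  obtain ⟨⟨v, e⟩, y⟩ := w
  cases e
  · exact hfalse v y
  · have h1 := (hfalse (v - i) (wB R P i s j (v, true) - y)).stepf
    have h2 : Cf R P i s j ((v - i, false), wB R P i s j (v, true) - y) = ((v, true), y) := by
      have h3 := Cf_inv i s j (((v, true), y) : Vt R P)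
      have h4 : Cf R P i s j ((v, true), y) = ((v - i, false), wB R P i s j (v, true) - y) := by
        simp [Cf, c0]
      rw [h4] at h3
      exact h3
    rw [h2] at h1
    exact h1

/-- the reflection without the exceptional edge -/
def Fv (R P : ℕ) (a : ZMod R) (s c : ZMod P) (v : Vt R P) : Vt R P :=
  (r0 a v.1, wA R P a s c v.1 - v.2)

theorem Fv_or (a : ZMod R) (s c : ZMod P) (v : Vt R P) :
    Fv R P a s c v = v ∨ Fv R P a s c v = Ff R P a s c v := by
  obtain ⟨⟨u, e⟩, x⟩ := v
  by_cases h : u = a ∧ 2 * x = wA R P a s c (u, e)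
  · left
    simp only [Fv, r0]
    ext
    · show 2 * a - u = u
      rw [h.1]; ring
    · rfl
    · show wA R P a s c (u, e) - x = x
      rw [← h.2]; ring
  · right
    simp only [Fv, Ff, if_neg h]

theorem orb_FC (hR : Odd R) {a i : ZMod R} (s t c j : ZMod P) (hi : i ≠ 0) (ht : IsUnit (2 * t))
    (w : Vt R P) : Orb (Ff R P a s c) (Cf R P i t j) ((a, false), 0) w := by
  have : NeZero R := ⟨(Fact.out : R.Prime).ne_zero⟩
  have h2 : (2 : ZMod R) ≠ 0 := (isUnit_two hR).ne_zero
  have hbase : ∀ x : ZMod R × Bool, Orb (r0 a) (c0 i) (a, false) x := by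
    have key : ∀ k : ℕ, Orb (r0 a) (c0 i) (a, false) (a - (k : ZMod R) * (2 * i), false) := by
      intro k
      induction k with
      | zero => simpa using Orb.base
      | succ k ih =>
        have h1 := ih.stepf.stepg.stepf.stepg
        have h3 : c0 i (r0 a (c0 i (r0 a (a - (k : ZMod R) * (2 * i), false)))) =
            (a - ((k + 1 : ℕ) : ZMod R) * (2 * i), false) := by
          simp only [r0, c0, Bool.false_eq_true, if_false, if_true]
          ext
          · simp only
            push_cast
            ring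
          · rfl
        rw [h3] at h1
        exact h1
    have hfalse : ∀ v : ZMod R, Orb (r0 a) (c0 i) (a, false) (v, false) := by
      intro v
      obtain ⟨k, hk⟩ := exists_mul (mul_ne_zero h2 hi) (a - v)
      have := key k
      rw [hk, sub_sub_cancel] at this
      exact this
    rintro ⟨v, e⟩
    cases e
    · exact hfalse v
    · have := (hfalse (v - i)).stepg
      have h3 : c0 i (v - i, false) = (v, true) := by simp [c0]
      rw [h3] at this
      exact this
  have hA : ∑ v, wA R P a s c v = 0 := by
    rw [Fintype.sum_prod_type]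
    simp only [Fintype.sum_bool, wA, if_true, Bool.false_eq_true, if_false, neg_add_cancel,
      sum_const_zero]
  have hB : ∑ v, wB R P i t j v = -(2 * t) := by
    rw [Fintype.sum_prod_type]
    simp only [Fintype.sum_bool, wB, if_true, Bool.false_eq_true, if_false, sum_add_distrib,
      sum_neg_distrib]
    have h3 : ∑ x : ZMod R, om R P (x - i) t j = t :=
      (Fintype.sum_equiv (Equiv.subRight i) _ (fun x => om R P x t j)
        (fun _ => rfl)).trans (om_sum t j)
    rw [h3, om_sum]
    ring
  have hu : IsUnit (∑ v, wB R P i t j v - ∑ v, wA R P a s c v) := by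
    rw [hA, hB, sub_zero]
    exact ht.neg
  have h4 := skew_orb (f := r0 a) (g := c0 i) (r0_inv a) (c0_inv i) (a := (a, false))
    (b := (a, false)) (by simp only [r0]; ext <;> simp; ring) hbase (wA R P a s c) (wB R P i t j)
    hu w
  exact Orb.map' (f' := Ff R P a s c) (g' := Cf R P i t j) (fun v => v)
    (fun v => Fv_or a s c v) (fun v => Or.inr rfl) h4

theorem orb_FF (hR : Odd R) (hP : Odd P) {a b : ZMod R} (s t c d : ZMod P) (hab : a ≠ b)
    (hs : IsUnit (t - s)) (w : Vt R P) :
    Orb (Ff R P a s c) (Ff R P b t d) ((a, false), 0) w := by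
  have : NeZero R := ⟨(Fact.out : R.Prime).ne_zero⟩
  have h2 : (2 : ZMod R) ≠ 0 := (isUnit_two hR).ne_zero
  have hbase : ∀ x : ZMod R, Orb (fun u : ZMod R => 2 * a - u) (fun u => 2 * b - u) a x := by
    have key : ∀ k : ℕ, Orb (fun u : ZMod R => 2 * a - u) (fun u => 2 * b - u) a
        (a + (k : ZMod R) * (2 * (b - a))) := by
      intro k
      induction k with
      | zero => simpa using Orb.base
      | succ k ih =>
        have h1 := ih.stepf.stepg
        have h3 : 2 * b - (2 * a - (a + (k : ZMod R) * (2 * (b - a)))) =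
            a + ((k + 1 : ℕ) : ZMod R) * (2 * (b - a)) := by
          push_cast
          ring
        rw [h3] at h1
        exact h1
    intro v
    obtain ⟨k, hk⟩ := exists_mul (mul_ne_zero h2 (sub_ne_zero.mpr hab.symm)) (v - a)
    have := key k
    rw [hk, add_sub_cancel] at this
    exact this
  have hsum : ∀ (a : ZMod R) (s c : ZMod P) (e : Bool),
      ∑ v, wA R P a s c (v, e) = if e = true then -s else s := by
    intro a s c e
    have h3 : ∑ x : ZMod R, om R P (x - a) s c = s :=
      (Fintype.sum_equiv (Equiv.subRight a) _ (fun x => om R P x s c)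
        (fun _ => rfl)).trans (om_sum s c)
    cases e
    · simp only [wA, Bool.false_eq_true, if_false]
      exact h3
    · simp only [wA, if_true, sum_neg_distrib]
      rw [h3]
  have hcopy : ∀ (e : Bool) (v : ZMod R) (y : ZMod P),
      Orb (Ff R P a s c) (Ff R P b t d) ((a, e), 0) ((v, e), y) := by
    intro e v y
    have hu : IsUnit (∑ v, wA R P b t d (v, e) - ∑ v, wA R P a s c (v, e)) := by
      rw [hsum, hsum]
      cases e
      · simp only [Bool.false_eq_true, if_false]
        exact hs
      · simp only [if_true]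
        have h9 : -t - -s = -(t - s) := by ring
        rw [h9]
        exact hs.neg
    have h4 := skew_orb (f := fun u : ZMod R => 2 * a - u) (g := fun u => 2 * b - u)
      (fun u => by ring) (fun u => by ring) (a := a) (b := a) (by ring) hbase
      (fun u => wA R P a s c (u, e)) (fun u => wA R P b t d (u, e)) hu (v, y)
    exact Orb.map' (f' := Ff R P a s c) (g' := Ff R P b t d)
      (fun w : ZMod R × ZMod P => (((w.1, e), w.2) : Vt R P))
      (fun w => Fv_or a s c ((w.1, e), w.2)) (fun w => Fv_or b t d ((w.1, e), w.2)) h4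
  obtain ⟨τ, hτ⟩ := isUnit_two hP
  set z : ZMod P := (τ⁻¹ : (ZMod P)ˣ) * wA R P a s c (a, false) with hz
  have hz2 : 2 * z = wA R P a s c (a, false) := by
    rw [hz, ← mul_assoc, ← hτ, Units.mul_inv, one_mul]
  let S : Set (Vt R P) := {w | Orb (Ff R P a s c) (Ff R P b t d) ((a, false), 0) w}
  have hSf : ∀ x ∈ S, Ff R P a s c x ∈ S := fun x hx => Orb.stepf hx
  have hSg : ∀ x ∈ S, Ff R P b t d x ∈ S := fun x hx => Orb.stepg hx
  have h5 : (((a, true), -z) : Vt R P) ∈ S := by
    have h6 : Ff R P a s c ((a, false), z) = ((a, true), -z) := by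
      unfold Ff
      rw [if_pos ⟨rfl, hz2⟩]
      rfl
    have h7 := (hcopy false a z).stepf
    rw [h6] at h7
    exact h7
  have h8 : (((a, true), 0) : Vt R P) ∈ S :=
    Orb.back (Ff_inv a s c) (Ff_inv b t d) S hSf hSg (hcopy true a (-z)) h5
  obtain ⟨⟨v, e⟩, y⟩ := w
  cases e
  · exact hcopy false v y
  · exact Orb.mem_of_closed S hSf hSg h8 (hcopy true v y)

end

end Pool.Agent.Helper23.KC
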