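import Mathlib
import Pool.Agent.Helper53.P1F.System
import Pool.Agent.Helper23.KC.Product
import Pool.Agent.Helper23.KC.GB

set_option autoImplicit false

/-!
# The second family: the theorem
-/

namespace Pool.Agent.Helper23.KC

open Finset Pool.Agent.Helper53.P1F

theorem HamPair.symm' {n : ℕ} {A B : Finset (Sym2 (Fin n))} (h : HamPair A B) : HamPair B A := by
  obtain ⟨u, v, p, h1, h2⟩ := h
  exact ⟨u, v, p, h1, by rw [h2, union_comm]⟩

theorem unit_diff {R P : ℕ} [NeZero R] (hle : ∀ q : ℕ, q.Prime → q ∣ P → R ≤ q) {a b : ZMod R}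
    (hab : a ≠ b) : IsUnit ((a.val : ZMod P) - (b.val : ZMod P)) := by
  have key : ∀ a b : ZMod R, b.val < a.val → IsUnit ((a.val : ZMod P) - (b.val : ZMod P)) := by
    intro a b hab
    have h1 : (a.val : ZMod P) - (b.val : ZMod P) = ((a.val - b.val : ℕ) : ZMod P) := by
      rw [Nat.cast_sub hab.le]
    rw [h1, ZMod.isUnit_iff_coprime]
    apply Nat.coprime_of_dvd
    intro q hq h1 h2
    have h3 := hle q hq h2
    have h4 := Nat.le_of_dvd (by omega) h1
    have := ZMod.val_lt a
    omega
  have hne : a.val ≠ b.val := fun h => hab (ZMod.val_injective R h)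
  rcases lt_or_gt_of_ne hne with h | h
  · have := (key b a h).neg
    rwa [neg_sub] at this
  · exact key a b h

/-- **The second family.** -/
theorem second_family {m : ℕ} (hm : Odd m) (hm3 : 3 ≤ m) :
    ∃ F : Fin (2 * m - 1) → Finset (Sym2 (Fin (2 * m - 1))), IsNearFactorization (2 * m - 1) F ∧
      ∃ cls : Fin (2 * m - 1) → Bool × ZMod m.minFac,
        (∀ k, (univ.filter (fun i => cls i = k)).card =
          if k = (true, 0) then m / m.minFac - 1 else m / m.minFac) ∧
        ∀ i j, cls i ≠ cls j → ¬ (cls i = (true, 0) ∧ (cls j).1 = false) →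
          ¬ (cls j = (true, 0) ∧ (cls i).1 = false) → HamPair (F i) (F j) := by
  classical
  set R := m.minFac with hRdef
  have hRp : R.Prime := Nat.minFac_prime (by omega)
  have hRd : R ∣ m := Nat.minFac_dvd m
  have hRo : Odd R := hm.of_dvd_nat hRd
  obtain ⟨P, hP⟩ := hRd
  have hPo : Odd P := hm.of_dvd_nat ⟨R, by rw [hP, mul_comm]⟩
  have hP0 : 0 < P := hPo.pos
  have : NeZero P := ⟨hP0.ne'⟩
  have : NeZero R := ⟨hRp.ne_zero⟩
  have : Fact R.Prime := ⟨hRp⟩
  have hdiv : m / R = P := by
    rw [hP]; exact Nat.mul_div_cancel_left P hRp.pos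
  have hle : ∀ q : ℕ, q.Prime → q ∣ P → R ≤ q := by
    intro q hq hqP
    exact Nat.minFac_le_of_dvd hq.two_le (hP ▸ Dvd.dvd.mul_left hqP R)
  have hu : IsUnit ((R : ZMod P) - 1) := by
    have h1 : (R : ZMod P) - 1 = ((R - 1 : ℕ) : ZMod P) := by
      rw [Nat.cast_sub hRp.one_lt.le, Nat.cast_one]
    rw [h1, ZMod.isUnit_iff_coprime]
    apply Nat.coprime_of_dvd
    intro q hq h1 h2
    have h3 := hle q hq h2
    have h4 := Nat.le_of_dvd (by have := hRp.one_lt; omega) h1
    have := hRp.one_lt
    omega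
  have h2P := isUnit_two hPo
  let I := {x : Bool × ZMod R × ZMod P // x ≠ (true, 0, 0)}
  have hn1 : 2 * m - 1 + 1 = 2 * m := by omega
  have hcardI : Fintype.card I = 2 * m - 1 := by
    have h1 := Fintype.card_subtype_compl (fun x : Bool × ZMod R × ZMod P => x = (true, 0, 0))
    rw [Fintype.card_subtype_eq, Fintype.card_prod, Fintype.card_prod, Fintype.card_bool,
      ZMod.card, ZMod.card, ← hP] at h1
    exact h1
  have hcardW : Fintype.card (Vt R P) = 2 * m - 1 + 1 := by
    rw [Fintype.card_prod, Fintype.card_prod, Fintype.card_bool, ZMod.card, ZMod.card, hn1, hP]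
    ring
  obtain ⟨F, hF, e, he⟩ := exists_near_punc (I := I) (W := Vt R P) (n := 2 * m - 1) hcardI hcardW
    (fun i => gf R P i.1) (fun i => gf_inv i.1)
    (fun v i j h => Subtype.ext (gf_inj hRo hPo hu v i.1 j.1 i.2 j.2 h))
    (fun i => gf_ne hRo i.1) ((0, false), 0)
  refine ⟨F, hF, fun i => ((e.symm i).1.1, (e.symm i).1.2.1), ?_, ?_⟩
  · intro k
    rw [hdiv]
    have h1 : (univ.filter (fun i => ((e.symm i).1.1, (e.symm i).1.2.1) = k)).card =
        ((univ : Finset (ZMod P)).filter (fun c => (k.1, k.2, c) ≠ (true, 0, 0))).card := by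
      refine card_bij' (fun i _ => (e.symm i).1.2.2)
        (fun c hc => e ⟨(k.1, k.2, c), (mem_filter.mp hc).2⟩) ?_ ?_ ?_ ?_
      · intro i hi
        rw [mem_filter] at hi ⊢
        refine ⟨mem_univ _, ?_⟩
        rw [← hi.2]
        exact (e.symm i).2
      · intro c hc
        rw [mem_filter]
        refine ⟨mem_univ _, ?_⟩
        rw [Equiv.symm_apply_apply]
      · intro i hi
        rw [mem_filter] at hi
        rw [← Equiv.eq_symm_apply]
        apply Subtype.ext
        show (k.1, k.2, (e.symm i).1.2.2) = (e.symm i).1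
        rw [← hi.2]
      · intro c hc
        rw [Equiv.symm_apply_apply]
    rw [h1]
    split_ifs with hk
    · have h2 : (univ : Finset (ZMod P)).filter (fun c => (k.1, k.2, c) ≠ (true, 0, 0)) =
          univ.erase 0 := by
        ext c
        rw [hk]
        simp
      rw [h2, card_erase_of_mem (mem_univ _), card_univ, ZMod.card]
    · have h2 : (univ : Finset (ZMod P)).filter (fun c => (k.1, k.2, c) ≠ (true, 0, 0)) =
          univ := by
        ext c
        simp only [mem_filter, mem_univ, true_and, iff_true]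
        intro h3
        apply hk
        rw [Prod.mk.injEq, Prod.mk.injEq] at h3
        exact Prod.ext h3.1 h3.2.1
      rw [h2, card_univ, ZMod.card]
  · have main : ∀ x y : I, (x.1.1, x.1.2.1) ≠ (y.1.1, y.1.2.1) →
        ¬ ((x.1.1, x.1.2.1) = (true, 0) ∧ y.1.1 = false) →
        ¬ ((y.1.1, y.1.2.1) = (true, 0) ∧ x.1.1 = false) → HamPair (F (e x)) (F (e y)) := by
      have mainFC : ∀ (a i : ZMod R) (c j : ZMod P) (h1) (h2), i ≠ 0 →
          HamPair (F (e ⟨(false, a, c), h1⟩)) (F (e ⟨(true, i, j), h2⟩)) := by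
        intro a i c j h1 h2 hi
        refine he _ _ ⟨((a, false), 0), fun w => ?_⟩
        have hiu : IsUnit (2 * (i.val : ZMod P)) := by
          have h3 := unit_diff hle hi
          rw [ZMod.val_zero, Nat.cast_zero, sub_zero] at h3
          exact h2P.mul h3
        exact orb_FC hRo _ _ c j hi hiu w
      rintro ⟨⟨k, a, c⟩, hx⟩ ⟨⟨l, b, d⟩, hy⟩ h1 h2 h3
      simp only at h1 h2 h3
      cases k <;> cases l
      · have hab : a ≠ b := fun h => h1 (by rw [h])
        refine he _ _ ⟨((a, false), 0), fun w => ?_⟩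
        exact orb_FF hRo hPo _ _ c d hab (unit_diff hle hab.symm) w
      · refine mainFC a b c d hx hy ?_
        rintro rfl
        exact h3 ⟨rfl, rfl⟩
      · refine HamPair.symm' (mainFC b a d c hy hx ?_)
        rintro rfl
        exact h2 ⟨rfl, rfl⟩
      · have hab : a ≠ b := fun h => h1 (by rw [h])
        refine he _ _ ⟨((0, false), 0), fun w => ?_⟩
        exact orb_CC _ _ c d hab (unit_diff hle hab) w
    intro i j h1 h2 h3
    have := main (e.symm i) (e.symm j) h1 h2 h3
    simpa using this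

end Pool.Agent.Helper23.KC
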